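import Pool.Agent.Lib_helper15.AQ.TP.Consts

/-!
# AQ (MP_892e4c_nt), (LB): the classes (helper15)
-/

set_option autoImplicit false

namespace Pool.Agent.AQ.TPA

open Finset Pool.Agent.PENT Pool.Agent.AQ.NC
open Pool.Agent.TPA (PX ell lc)

variable [Cst]

theorem a0n_pos : 0 < a0.natAbs := Int.natAbs_pos.2 a0_pos.ne'

theorem a0n_cast : ((a0.natAbs : ℕ) : ℤ) = a0 := Int.natAbs_of_nonneg a0_pos.le

theorem R_dvd_a0n : R ∣ a0.natAbs := by
  rw [← Int.natCast_dvd_natCast, a0n_cast]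
  exact R_dvd_a0

theorem gam_pos : 0 < gam := by
  unfold gam
  have h1 := z1_pos
  have h2 := z_two
  apply Int.natAbs_pos.2
  show (zz.2 + 4 * zz.1 : ℤ) ≠ 0
  have h1' : (0 : ℤ) < zz.1 := h1
  have h2' : (0 : ℤ) < zz.2 := h2
  omega

theorem gam_cast : ((gam : ℕ) : ℤ) = zz.2 + 4 * zz.1 := by
  unfold gam
  have h1' : (0 : ℤ) < zz.1 := z1_pos
  have h2' : (0 : ℤ) < zz.2 := z_two
  exact Int.natAbs_of_nonneg (by omega)

theorem gb_pos : 0 < gb := Nat.gcd_pos_of_pos_left _ gam_pos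

theorem gb_dvd : gb ∣ gam := Nat.gcd_dvd_left _ _

theorem gb_prime {p : ℕ} (hp : p.Prime) (h : p ∣ gb) : p ∣ a0.natAbs :=
  hp.dvd_of_dvd_pow (h.trans (Nat.gcd_dvd_right _ _))

/-- the other part of `gam` is prime to `a0` -/
theorem gam_cop : Nat.Coprime (gam / gb) a0.natAbs := by
  rw [Nat.coprime_iff_gcd_eq_one]
  by_contra hne
  obtain ⟨p, hp, hpd⟩ := Nat.exists_prime_and_dvd hne
  have h1 : p ∣ gam / gb := hpd.trans (Nat.gcd_dvd_left _ _)
  have h2 : p ∣ a0.natAbs := hpd.trans (Nat.gcd_dvd_right _ _)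
  have hg := gam_pos
  -- `p ^ v ∣ gb` with `v = v_p(gam)`
  have h3 : p ^ gam.factorization p ∣ gb := by
    unfold gb
    apply Nat.dvd_gcd (Nat.ordProj_dvd _ _)
    have h4 : gam.factorization p ≤ gam := by
      have h5 : p ^ gam.factorization p ≤ gam := Nat.le_of_dvd hg (Nat.ordProj_dvd _ _)
      have h6 : gam.factorization p < p ^ gam.factorization p :=
        Nat.lt_pow_self hp.one_lt
      omega
    exact (pow_dvd_pow_of_dvd h2 _).trans (pow_dvd_pow _ h4)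
  have h7 : p * p ^ gam.factorization p ∣ gam := by
    have h8 : p * gb ∣ gam := by
      obtain ⟨k, hk⟩ := h1
      have h9 : gam = gam / gb * gb := (Nat.div_mul_cancel gb_dvd).symm
      rw [h9, hk]
      exact ⟨k, by ring⟩
    exact (Nat.mul_dvd_mul_left p h3).trans h8
  have h8 : p ^ (gam.factorization p + 1) ∣ gam := by
    rw [pow_succ, mul_comm]; exact h7
  have h9 := (hp.pow_dvd_iff_le_factorization hg.ne').1 h8
  omega

theorem M0_pos : 0 < M0 := Nat.mul_pos a0n_pos gb_pos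

theorem a0_dvd_M0 : a0 ∣ (M0 : ℤ) := by
  unfold M0
  rw [Nat.cast_mul, a0n_cast]
  exact dvd_mul_right _ _

theorem R_dvd_M0 : R ∣ M0 := R_dvd_a0n.trans (Nat.dvd_mul_right _ _)

theorem a0n_prime {p : ℕ} (hp : p.Prime) (h : p ∣ a0.natAbs) : p ∣ R :=
  prime_dvd_a0 hp (by rw [← a0n_cast]; exact_mod_cast h)

theorem M0_prime {p : ℕ} (hp : p.Prime) (h : p ∣ M0) : p ∣ R := by
  unfold M0 at h
  rcases (Nat.Prime.dvd_mul hp).1 h with h | h
  · exact a0n_prime hp h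
  · exact a0n_prime hp (gb_prime hp h)

theorem adm_a0 : Adm a0.natAbs := ⟨a0n_pos, R_dvd_a0n, fun _ hp h => a0n_prime hp h⟩

theorem adm_M0 : Adm M0 := ⟨M0_pos, R_dvd_M0, fun _ hp h => M0_prime hp h⟩

/-- coprime to an admissible modulus = coprime to `R` -/
theorem Adm.cop_iff {a : ℕ} (h : Adm a) {n : ℕ} : Nat.Coprime n a ↔ Nat.Coprime n R := by
  constructor
  · intro h1
    exact Nat.Coprime.coprime_dvd_right h.dv h1
  · intro h1
    rw [Nat.coprime_iff_gcd_eq_one]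
    by_contra hne
    obtain ⟨p, hp, hpd⟩ := Nat.exists_prime_and_dvd hne
    have h2 : p ∣ n := hpd.trans (Nat.gcd_dvd_left _ _)
    have h3 : p ∣ R := h.pr p hp (hpd.trans (Nat.gcd_dvd_right _ _))
    have h4 := Nat.dvd_gcd h2 h3
    rw [h1] at h4
    exact hp.one_lt.ne' (Nat.dvd_one.1 h4)

/-! ### the tiny vectors -/

section

variable {P1 : ℕ} {S : Finset ℕ} {A : ℕ → ℝ} {v : ℕ → ℤ × ℤ}

/-- the classes of the determinants `Δ_b`, `b ≤ 3` -/
theorem Tin.De_cl (h : Tin P1 S A v) {b : ℕ} (hb : b ≤ 3) : (M0 : ℤ) ∣ De v b + 1 := by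
  unfold De dt
  rcases Nat.eq_zero_or_pos b with rfl | h0
  · rw [h.v0]
    have h2 := (h.cl 1 le_rfl (by norm_num)).2
    simp only [one_mul, zero_mul, sub_zero, zero_add]
    simpa using h2
  · obtain ⟨h1, h2⟩ := h.cl b h0 (by omega)
    obtain ⟨h3, h4⟩ := h.cl (b + 1) (by omega) (by omega)
    have e : (v b).1 * (v (b + 1)).2 - (v b).2 * (v (b + 1)).1 + 1 =
        ((v b).1 - 1) * (v (b + 1)).2 + ((v (b + 1)).2 + ((b + 1 : ℕ) : ℤ)) -
          ((v b).2 + (b : ℤ)) * (v (b + 1)).1 + (b : ℤ) * ((v (b + 1)).1 - 1) := by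
      push_cast; ring
    rw [e]
    exact dvd_add (dvd_sub (dvd_add (h1.mul_right _) h4) (h2.mul_right _)) (h3.mul_left _)

/-- the class of `Δ_4` -/
theorem Tin.De_cl4 (h : Tin P1 S A v) : (M0 : ℤ) ∣ De v 4 - (gam : ℤ) := by
  unfold De dt
  show (M0 : ℤ) ∣ (v 4).1 * (v 5).2 - (v 4).2 * (v 5).1 - (gam : ℤ)
  rw [h.v5, gam_cast]
  obtain ⟨h1, h2⟩ := h.cl 4 (by norm_num) le_rfl
  have e : (v 4).1 * zz.2 - (v 4).2 * zz.1 - (zz.2 + 4 * zz.1) =
      ((v 4).1 - 1) * zz.2 - ((v 4).2 + ((4 : ℕ) : ℤ)) * zz.1 := by push_cast; ring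
  rw [e]
  exact dvd_sub (h1.mul_right _) (h2.mul_right _)

theorem Tin.De_cop (h : Tin P1 S A v) {b : ℕ} (hb : b ≤ 3) : IsCoprime (De v b) a0 := by
  obtain ⟨k, hk⟩ := a0_dvd_M0.trans (h.De_cl hb)
  exact ⟨-1, k, by linear_combination (-1 : ℤ) * hk⟩

theorem gb_dvd_M0 : gb ∣ M0 := Nat.dvd_mul_left _ _

theorem Tin.gb_dvd4 (h : Tin P1 S A v) : (gb : ℤ) ∣ De v 4 := by
  have h1 : (gb : ℤ) ∣ De v 4 - (gam : ℤ) :=
    (Int.natCast_dvd_natCast.2 gb_dvd_M0).trans h.De_cl4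
  have h2 : (gb : ℤ) ∣ (gam : ℤ) := Int.natCast_dvd_natCast.2 gb_dvd
  have h3 := dvd_add h1 h2
  rwa [sub_add_cancel] at h3

/-- `Δ_b = Dq_b` or `gb Dq_b` -/
theorem Tin.De_eq (h : Tin P1 S A v) (b : ℕ) :
    (De v b).natAbs = (if b = 4 then gb else 1) * Dq v b := by
  unfold Dq
  split_ifs with h4
  · subst h4
    exact (Nat.mul_div_cancel' (Int.natCast_dvd.1 h.gb_dvd4)).symm
  · rw [Nat.div_one, one_mul]

/-- `Dq_b` is prime to `R` -/
theorem Tin.Dq_cop (h : Tin P1 S A v) {b : ℕ} (hb : b ≤ 4) (hD : 0 < De v b) :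
    Nat.Coprime (Dq v b) R := by
  rw [Nat.coprime_iff_gcd_eq_one]
  by_contra hne
  obtain ⟨p, hp, hpd⟩ := Nat.exists_prime_and_dvd hne
  have h1 : p ∣ Dq v b := hpd.trans (Nat.gcd_dvd_left _ _)
  have h2 : p ∣ R := hpd.trans (Nat.gcd_dvd_right _ _)
  have h3 : (p : ℤ) ∣ a0 := (Int.natCast_dvd_natCast.2 h2).trans R_dvd_a0
  have hpp := Nat.prime_iff_prime_int.1 hp
  by_cases h4 : b = 4
  · subst h4
    have h5 := h.De_eq 4
    rw [if_pos rfl] at h5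
    have h6 : De v 4 = (gb : ℤ) * (Dq v 4 : ℤ) := by
      have : ((De v 4).natAbs : ℤ) = De v 4 := Int.natAbs_of_nonneg hD.le
      rw [← this, h5]; push_cast; ring
    have h7 : (gam : ℤ) = (gb : ℤ) * ((gam / gb : ℕ) : ℤ) := by
      exact_mod_cast (Nat.mul_div_cancel' gb_dvd).symm
    have h8 := h.De_cl4
    rw [h6, h7, ← mul_sub] at h8
    have h9 : (a0.natAbs : ℤ) ∣ (Dq v 4 : ℤ) - ((gam / gb : ℕ) : ℤ) := by
      unfold M0 at h8
      push_cast at h8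
      have hg : (gb : ℤ) ≠ 0 := by exact_mod_cast gb_pos.ne'
      rw [mul_comm (gb : ℤ) _] at h8
      have h8' : (a0.natAbs : ℤ) * (gb : ℤ) ∣
          ((Dq v 4 : ℤ) - ((gam / gb : ℕ) : ℤ)) * (gb : ℤ) := by
        simpa using h8
      exact (mul_dvd_mul_iff_right hg).1 h8'
    have h10 : (p : ℤ) ∣ ((gam / gb : ℕ) : ℤ) := by
      have h11 : (p : ℤ) ∣ (Dq v 4 : ℤ) - ((gam / gb : ℕ) : ℤ) := by
        refine Dvd.dvd.trans ?_ h9
        rw [a0n_cast]; exact h3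
      have h12 : (p : ℤ) ∣ (Dq v 4 : ℤ) := Int.natCast_dvd_natCast.2 h1
      have := dvd_sub h12 h11
      rwa [sub_sub_cancel] at this
    have h13 : p ∣ gam / gb := Int.natCast_dvd_natCast.1 h10
    have h14 : p ∣ a0.natAbs := h2.trans R_dvd_a0n
    have h15 := Nat.dvd_gcd h13 h14
    rw [gam_cop] at h15
    exact hp.one_lt.ne' (Nat.dvd_one.1 h15)
  · have h5 := h.De_eq b
    rw [if_neg h4, one_mul] at h5
    have h6 : (p : ℤ) ∣ De v b := Int.natCast_dvd.2 (by rw [h5]; exact h1)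
    exact hpp.not_isUnit ((h.De_cop (by omega)).isUnit_of_dvd' h6 h3)

/-- the even vertices are units modulo `R` -/
theorem Tin.unit (h : Tin P1 S A v) {b : ℕ} (hb : b ≤ 5) : IsCoprime (v b).1 (R : ℤ) := by
  rcases Nat.eq_zero_or_pos b with rfl | h0
  · rw [h.v0]; exact isCoprime_one_left
  · rcases Nat.eq_or_lt_of_le hb with rfl | h5
    · rw [h.v5]; exact z_unit
    · obtain ⟨k, hk⟩ := (Int.natCast_dvd_natCast.2 R_dvd_M0).trans (h.cl b h0 (by omega)).1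
      exact ⟨1, -k, by linear_combination hk⟩

/-- the even vertices are primitive -/
theorem Tin.prim (h : Tin P1 S A v) {b : ℕ} (hb : b ≤ 5) : IsCoprime (v b).1 (v b).2 := by
  rcases Nat.eq_zero_or_pos b with rfl | h0
  · rw [h.v0]; exact isCoprime_one_left
  · rcases Nat.eq_or_lt_of_le hb with rfl | h5
    · rw [h.v5]; exact z_cop
    · exact h.cp b h0 (by omega)

/-- `v_b.1 = 1` modulo `M0` for `b ≤ 4` -/
theorem Tin.cl1 (h : Tin P1 S A v) {b : ℕ} (hb : b ≤ 4) : (M0 : ℤ) ∣ (v b).1 - 1 := by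
  rcases Nat.eq_zero_or_pos b with rfl | h0
  · rw [h.v0]; simp
  · exact (h.cl b h0 hb).1

end

end Pool.Agent.AQ.TPA
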