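import Pool.Agent.Lib_helper15.AQ.TP.Defs

/-!
# AQ (MP_892e4c_nt), (LB): constants, slopes, boxes (helper15)
-/

set_option autoImplicit false

namespace Pool.Agent.AQ.TPA

open Finset Pool.Agent.PENT Pool.Agent.AQ.NC
open Pool.Agent.TPA (PX ell lc)

variable [Cst]

/-! ### constants -/

theorem zz1_pos : (0 : ℝ) < (zz.1 : ℝ) := by exact_mod_cast z1_pos

theorem zz2_pos : (0 : ℝ) < (zz.2 : ℝ) := by exact_mod_cast z_two

theorem rho_pos : 0 < ρ₂ := ρ_pos.trans ρ_lt

theorem sz_pos : 0 < sz := div_pos zz2_pos zz1_pos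

theorem zz2_eq : (zz.2 : ℝ) = zz.1 * sz := by
  unfold sz
  field_simp [zz1_pos.ne']

theorem Sl_pos : 0 < Sl := by
  unfold Sl
  have := rho_pos
  positivity

theorem sz_lt_Sl : sz < Sl := by
  unfold sz Sl
  rw [div_lt_div_iff₀ zz1_pos rho_pos, one_mul, mul_comm]
  exact z_cone

theorem ka_pos : 0 < ka := by
  unfold ka
  linarith [sz_lt_Sl]

theorem gp_pos : 0 < gp := by
  unfold gp
  have h1 := sz_pos
  have h2 := ka_pos
  exact lt_min (by positivity) (by positivity)

theorem gp_le_sz : gp ≤ sz / 5 := min_le_left _ _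

theorem gp_le_ka : gp ≤ ka / 6 := min_le_right _ _

theorem gp_le_Sl : gp ≤ Sl := by
  have h1 := gp_le_sz
  have h2 := sz_lt_Sl
  have h3 := sz_pos
  linarith

theorem KK_ge : 4 ≤ KK := by
  unfold KK
  linarith [Sl_pos]

theorem KK_pos : 0 < KK := by linarith [KK_ge]

theorem HH_ge : 1 ≤ HH := by
  unfold HH
  have h1 := Sl_pos
  have h2 := sz_pos
  have h3 := KK_pos
  have : 0 ≤ 10 * Sl / sz * KK := by positivity
  linarith

theorem HH_pos : 0 < HH := by linarith [HH_ge]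

theorem ee_pos : 0 < ee := by
  unfold ee
  have h1 := gp_pos
  have h2 := KK_pos
  have h3 := HH_pos
  positivity

theorem ee_le_gp : KK * (HH * ee) = gp / 100 := by
  unfold ee
  have h2 := KK_pos
  have h3 := HH_pos
  field_simp

theorem hee_le : HH * ee ≤ gp / 400 := by
  have h1 := ee_le_gp
  have h2 := KK_ge
  have h3 : 0 < HH * ee := mul_pos HH_pos ee_pos
  nlinarith

theorem hee_le' : HH * ee ≤ 1 / 400 := by
  have h1 := ee_le_gp
  have h2 : 0 < HH * ee := mul_pos HH_pos ee_pos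
  have h3 : gp ≤ Sl / 5 := by
    have := gp_le_sz
    have := sz_lt_Sl
    linarith
  have h4 := Sl_pos
  unfold KK at h1
  by_contra hne
  push Not at hne
  have h5 : (4 + 2 * Sl) * (1 / 400) < (4 + 2 * Sl) * (HH * ee) :=
    mul_lt_mul_of_pos_left hne (by linarith)
  linarith

theorem ee_le_hee : ee ≤ HH * ee := by
  have h1 := HH_ge
  have h2 := ee_pos
  nlinarith

theorem ee_le : ee ≤ 1 / 400 := ee_le_hee.trans hee_le'

/-! ### slopes -/

theorem sg_even (b : ℕ) : sg (2 * b) = (b : ℝ) * sz / 5 := by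
  unfold sg
  rw [if_pos (by omega), Nat.mul_div_cancel_left _ (by norm_num)]

theorem sg_odd (b : ℕ) : sg (2 * b + 1) = sz + ((b : ℝ) + 1) * ka / 6 := by
  unfold sg
  rw [if_neg (by omega), show (2 * b + 1) / 2 = b by omega]

theorem sg_zero : sg 0 = 0 := by
  have := sg_even 0
  simpa using this

theorem sg_ten : sg 10 = sz := by
  have := sg_even 5
  norm_num at this
  linarith

theorem sg_nonneg (l : ℕ) : 0 ≤ sg l := by
  have h1 := sz_pos
  have h2 := ka_pos
  unfold sg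
  split_ifs <;> positivity

/-- the slopes stay below `1/ρ₂` -/
theorem sg_le {l : ℕ} (hl : l ≤ 10) : sg l ≤ Sl - ka / 6 := by
  have h1 := sz_pos
  have h2 := ka_pos
  have e : Sl = sz + ka := by unfold ka; ring
  rcases Nat.even_or_odd' l with ⟨b, rfl | rfl⟩
  · rw [sg_even]
    have : (b : ℝ) ≤ 5 := by exact_mod_cast (by omega : b ≤ 5)
    nlinarith
  · rw [sg_odd]
    have : (b : ℝ) ≤ 4 := by exact_mod_cast (by omega : b ≤ 4)
    nlinarith

theorem sg_le' {l : ℕ} (hl : l ≤ 10) : sg l ≤ Sl := by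
  have := sg_le hl
  have := ka_pos
  linarith

/-- the first slope is positive -/
theorem sg_ge {l : ℕ} (hl : 1 ≤ l) : gp ≤ sg l := by
  have h1 := sz_pos
  have h2 := ka_pos
  have h3 := gp_le_sz
  have h4 := gp_le_ka
  rcases Nat.even_or_odd' l with ⟨b, rfl | rfl⟩
  · rw [sg_even]
    have : (1 : ℝ) ≤ (b : ℝ) := by exact_mod_cast (by omega : 1 ≤ b)
    nlinarith
  · rw [sg_odd]
    have : (0 : ℝ) ≤ (b : ℝ) := Nat.cast_nonneg b
    nlinarith

theorem sgn_even (a b : ℕ) : sgn a (2 * b + 1) = 1 := by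
  unfold sgn
  rw [if_neg]
  rintro ⟨-, h⟩
  rw [Nat.even_iff] at h
  omega

theorem sgn_ee (a m : ℕ) : sgn (2 * a) m = 1 := by
  unfold sgn
  rw [if_neg]
  rintro ⟨h, -⟩
  exact h ⟨a, by ring⟩

theorem sgn_oe (a b : ℕ) : sgn (2 * a + 1) (2 * b) = -1 := by
  unfold sgn
  rw [if_pos]
  refine ⟨?_, ⟨b, by ring⟩⟩
  rw [Nat.even_iff]
  omega

theorem sgn_sq (a b : ℕ) : sgn a b * sgn a b = 1 := by
  unfold sgn
  split_ifs <;> norm_num

theorem sgn_abs (a b : ℕ) : |sgn a b| = 1 := by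
  unfold sgn
  split_ifs <;> norm_num

/-- the slopes are separated -/
theorem sg_sep {l m : ℕ} (hlm : l < m) (hm : m ≤ 10) :
    gp ≤ sgn l m * (sg m - sg l) ∧ sgn l m * (sg m - sg l) ≤ Sl := by
  have h1 := sz_pos
  have h2 := ka_pos
  have h3 := gp_le_sz
  have h4 := gp_le_ka
  have hml := sg_le' (l := m) hm
  have hll := sg_le' (l := l) (by omega)
  have hm0 := sg_nonneg m
  have hl0 := sg_nonneg l
  rcases Nat.even_or_odd' l with ⟨a, rfl | rfl⟩
  · rw [sgn_ee, one_mul]
    refine ⟨?_, by linarith⟩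
    rcases Nat.even_or_odd' m with ⟨b, rfl | rfl⟩
    · rw [sg_even, sg_even]
      have : (a : ℝ) + 1 ≤ (b : ℝ) := by exact_mod_cast (by omega : a + 1 ≤ b)
      nlinarith
    · rw [sg_even, sg_odd]
      have h5 : (a : ℝ) ≤ 5 := by exact_mod_cast (by omega : a ≤ 5)
      have h6 : (0 : ℝ) ≤ (b : ℝ) := Nat.cast_nonneg b
      nlinarith [mul_nonneg h6 h2.le]
  · rcases Nat.even_or_odd' m with ⟨b, rfl | rfl⟩
    · rw [sgn_oe]
      refine ⟨?_, by linarith⟩
      rw [sg_even, sg_odd]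
      have h5 : (b : ℝ) ≤ 5 := by exact_mod_cast (by omega : b ≤ 5)
      have h6 : (0 : ℝ) ≤ (a : ℝ) := Nat.cast_nonneg a
      nlinarith [mul_nonneg h6 h2.le]
    · rw [sgn_even, one_mul]
      refine ⟨?_, by linarith⟩
      rw [sg_odd, sg_odd]
      have : (a : ℝ) + 1 ≤ (b : ℝ) := by exact_mod_cast (by omega : a + 1 ≤ b)
      nlinarith

/-! ### `al`, `be` -/

theorem al_be (b : ℕ) : al b = be b + 1 := by
  unfold al be
  have h1 := sz_pos
  rw [show 2 * b + 2 = 2 * (b + 1) by ring, sg_even, sg_even]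
  push_cast
  field_simp
  ring

theorem be_pos {b : ℕ} (hb : b ≤ 4) : 0 < be b := by
  have h := sg_sep (l := 2 * b + 1) (m := 2 * (b + 1)) (by omega) (by omega)
  rw [sgn_oe] at h
  have h1 := sz_pos
  have h2 := gp_pos
  unfold be
  rw [show 2 * b + 2 = 2 * (b + 1) by ring]
  have : 0 < sg (2 * b + 1) - sg (2 * (b + 1)) := by linarith [h.1]
  positivity

theorem al_pos {b : ℕ} (hb : b ≤ 4) : 0 < al b := by
  rw [al_be]
  linarith [be_pos hb]

theorem al_dir {b : ℕ} : al b * sg (2 * b + 2) - be b * sg (2 * b) = sg (2 * b + 1) := by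
  unfold al be
  have h1 := sz_pos
  rw [show 2 * b + 2 = 2 * (b + 1) by ring, sg_even, sg_even]
  push_cast
  field_simp
  ring

theorem al_be_le {b : ℕ} (hb : b ≤ 4) : al b + be b ≤ 10 * Sl / sz := by
  have h1 := sz_pos
  have h2 := sg_le' (l := 2 * b + 1) (by omega)
  have h3 := sg_nonneg (2 * b)
  have h4 := sg_nonneg (2 * b + 2)
  unfold al be
  have e : (sg (2 * b + 1) - sg (2 * b)) * 5 / sz + (sg (2 * b + 1) - sg (2 * b + 2)) * 5 / sz =
      (2 * sg (2 * b + 1) - sg (2 * b) - sg (2 * b + 2)) * 5 / sz := by ring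
  rw [e, div_le_div_iff_of_pos_right h1]
  linarith

/-! ### boxes -/

theorem nr_mono {e e' s y : ℝ} {u : ℤ × ℤ} (h : e ≤ e') (hs : 0 ≤ s) (hu : Nr e s y u) :
    Nr e' s y u :=
  ⟨hu.1.trans (mul_le_mul_of_nonneg_right h hs), hu.2.trans (mul_le_mul_of_nonneg_right h hs)⟩

theorem nr_of_bt {s y : ℝ} {u : ℤ × ℤ} (hs : 0 ≤ s) (hu : Bt s y u) : Nr ee s y u := by
  obtain ⟨h1, h2, h3, h4⟩ := hu
  have h5 : 0 ≤ ee * s := mul_nonneg ee_pos.le hs
  constructor
  · rw [abs_le]; constructor <;> linarith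
  · rw [abs_le]; constructor <;> linarith

theorem nr_dt {e s s' y y' : ℝ} {u v : ℤ × ℤ} (he : 0 ≤ e) (he1 : e ≤ 1) (hs : 0 < s)
    (hs' : 0 < s') (hy : 0 ≤ y) (hyS : y ≤ Sl) (hy' : 0 ≤ y') (hyS' : y' ≤ Sl)
    (hu : Nr e s y u) (hv : Nr e s' y' v) :
    |(dt u v : ℝ) - s * s' * (y' - y)| ≤ KK * e * (s * s') := by
  obtain ⟨h1, h2⟩ := hu
  obtain ⟨h3, h4⟩ := hv
  obtain ⟨a, ha⟩ : ∃ a : ℝ, a = (u.1 : ℝ) - s := ⟨_, rfl⟩
  obtain ⟨b, hb⟩ : ∃ b : ℝ, b = (u.2 : ℝ) - s * y := ⟨_, rfl⟩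
  obtain ⟨c, hc⟩ : ∃ c : ℝ, c = (v.1 : ℝ) - s' := ⟨_, rfl⟩
  obtain ⟨d, hd⟩ : ∃ d : ℝ, d = (v.2 : ℝ) - s' * y' := ⟨_, rfl⟩
  rw [← ha] at h1
  rw [← hb] at h2
  rw [← hc] at h3
  rw [← hd] at h4
  have e0 : (dt u v : ℝ) - s * s' * (y' - y) =
      s * d + a * (s' * y') + a * d - s * y * c - b * s' - b * c := by
    have e4 : (dt u v : ℝ) = (u.1 : ℝ) * v.2 - (u.2 : ℝ) * v.1 := by
      simp only [dt]; push_cast; ring
    rw [e4]
    have u1 : (u.1 : ℝ) = s + a := by linarith
    have u2 : (u.2 : ℝ) = s * y + b := by linarith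
    have v1 : (v.1 : ℝ) = s' + c := by linarith
    have v2 : (v.2 : ℝ) = s' * y' + d := by linarith
    rw [u1, u2, v1, v2]
    ring
  rw [e0]
  have hss : 0 < s * s' := mul_pos hs hs'
  have b1 : |s * d| ≤ e * (s * s') := by
    rw [abs_mul, abs_of_pos hs]
    nlinarith
  have b2 : |a * (s' * y')| ≤ e * (s * s') * Sl := by
    rw [abs_mul, abs_of_nonneg (show 0 ≤ s' * y' by positivity)]
    calc |a| * (s' * y') ≤ (e * s) * (s' * y') := mul_le_mul_of_nonneg_right h1 (by positivity)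
      _ = e * (s * s') * y' := by ring
      _ ≤ _ := mul_le_mul_of_nonneg_left hyS' (by positivity)
  have b3 : |a * d| ≤ e * (s * s') := by
    rw [abs_mul]
    calc |a| * |d| ≤ (e * s) * (e * s') := mul_le_mul h1 h4 (abs_nonneg _) (by positivity)
      _ = e * (e * (s * s')) := by ring
      _ ≤ 1 * (e * (s * s')) := mul_le_mul_of_nonneg_right he1 (by positivity)
      _ = _ := one_mul _
  have b4 : |s * y * c| ≤ e * (s * s') * Sl := by
    rw [abs_mul, abs_of_nonneg (show 0 ≤ s * y by positivity)]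
    calc s * y * |c| ≤ s * y * (e * s') := mul_le_mul_of_nonneg_left h3 (by positivity)
      _ = e * (s * s') * y := by ring
      _ ≤ _ := mul_le_mul_of_nonneg_left hyS (by positivity)
  have b5 : |b * s'| ≤ e * (s * s') := by
    rw [abs_mul, abs_of_pos hs']
    nlinarith
  have b6 : |b * c| ≤ e * (s * s') := by
    rw [abs_mul]
    calc |b| * |c| ≤ (e * s) * (e * s') := mul_le_mul h2 h3 (abs_nonneg _) (by positivity)
      _ = e * (e * (s * s')) := by ring
      _ ≤ 1 * (e * (s * s')) := mul_le_mul_of_nonneg_right he1 (by positivity)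
      _ = _ := one_mul _
  unfold KK
  rw [abs_le] at *
  constructor <;> nlinarith [b1.1, b1.2, b2.1, b2.2, b3.1, b3.2, b4.1, b4.2, b5.1, b5.2, b6.1, b6.2]

/-- two boxes in the directions of the vertices `l < m` -/
theorem nr_sep {l m : ℕ} (hlm : l < m) (hm : m ≤ 10) {s s' : ℝ} {u v : ℤ × ℤ} (hs : 0 < s)
    (hs' : 0 < s') (hu : Nr (HH * ee) s (sg l) u) (hv : Nr (HH * ee) s' (sg m) v) :
    99 / 100 * (sgn l m * (sg m - sg l)) * (s * s') ≤ sgn l m * (dt u v : ℝ) ∧
      sgn l m * (dt u v : ℝ) ≤ 101 / 100 * (sgn l m * (sg m - sg l)) * (s * s') := by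
  have h1 := nr_dt (mul_pos HH_pos ee_pos).le (hee_le'.trans (by norm_num)) hs hs' (sg_nonneg l)
    (sg_le' (by omega)) (sg_nonneg m) (sg_le' hm) hu hv
  obtain ⟨h2, h3⟩ := sg_sep hlm hm
  rw [ee_le_gp] at h1
  have hss : 0 < s * s' := mul_pos hs hs'
  have h4 : |sgn l m * ((dt u v : ℝ) - s * s' * (sg m - sg l))| ≤ gp / 100 * (s * s') := by
    rw [abs_mul, sgn_abs, one_mul]
    exact h1
  rw [abs_le] at h4
  have h5 : gp / 100 * (s * s') ≤ 1 / 100 * (sgn l m * (sg m - sg l)) * (s * s') :=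
    mul_le_mul_of_nonneg_right (by linarith) hss.le
  constructor <;> nlinarith [h4.1, h4.2]

/-- the new vector is near its direction -/
theorem nr_uu {b : ℕ} (hb : b ≤ 4) {s s' : ℝ} {v w : ℤ × ℤ} (hs : 0 < s) (hs' : 0 < s')
    (hv : Nr ee s (sg (2 * b)) v) (hw : Nr ee s' (sg (2 * b + 2)) w) (hΔ : 0 < dt v w) {e f : ℤ}
    (hi : Int2 v w e (-f)) {Z : ℝ} (hZ : 0 < Z)
    (he1 : al b * (dt v w * Z) / s' ≤ (e : ℝ))
    (he2 : (e : ℝ) ≤ (1 + ee) * (al b * (dt v w * Z) / s'))
    (hf1 : be b * (dt v w * Z) / s ≤ (f : ℝ))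
    (hf2 : (f : ℝ) ≤ (1 + ee) * (be b * (dt v w * Z) / s)) :
    Nr (HH * ee) Z (sg (2 * b + 1)) (uu v w e (-f)) := by
  obtain ⟨i1, i2⟩ := uu_spec1 hi
  have hD : (0 : ℝ) < dt v w := by exact_mod_cast hΔ
  have j1 : (dt v w : ℝ) * (uu v w e (-f)).1 = e * w.1 - f * v.1 := by
    have : (dt v w : ℤ) * (uu v w e (-f)).1 = e * w.1 - f * v.1 := by rw [i1]; ring
    exact_mod_cast this
  have j2 : (dt v w : ℝ) * (uu v w e (-f)).2 = e * w.2 - f * v.2 := by
    have : (dt v w : ℤ) * (uu v w e (-f)).2 = e * w.2 - f * v.2 := by rw [i2]; ring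
    exact_mod_cast this
  have hal := al_pos hb
  have hbe := be_pos hb
  have hee := ee_pos
  have hee1 := ee_le
  have hS := Sl_pos
  obtain ⟨d, hd⟩ : ∃ d : ℝ, d = (dt v w : ℝ) := ⟨_, rfl⟩
  rw [← hd] at hD j1 j2 he1 he2 hf1 hf2
  -- one coordinate
  have aux : ∀ (x y m n U : ℝ), 0 ≤ m → m ≤ 1 + Sl → 0 ≤ n → n ≤ 1 + Sl → |x - s' * m| ≤ ee * s' →
      |y - s * n| ≤ ee * s → d * U = e * x - f * y →
      |U - Z * (al b * m - be b * n)| ≤ HH * ee * Z := by
    intro x y m n U hm hm1 hn hn1 hx hy hU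
    have k1 : |e * x - d * Z * (al b * m)| ≤ al b * KK * ee * (d * Z) := by
      obtain ⟨p, hp⟩ : ∃ p : ℝ, p = e - al b * (d * Z) / s' := ⟨_, rfl⟩
      obtain ⟨r, hr⟩ : ∃ r : ℝ, r = x - s' * m := ⟨_, rfl⟩
      have hp0 : 0 ≤ p := by rw [hp]; linarith
      have hp1 : p ≤ ee * (al b * (d * Z) / s') := by rw [hp]; linarith
      rw [← hr] at hx
      have e0 : e * x - d * Z * (al b * m) = (al b * (d * Z) / s') * r + p * (s' * m) + p * r := by
        have e1 : (e : ℝ) = al b * (d * Z) / s' + p := by rw [hp]; ring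
        have e2 : x = s' * m + r := by rw [hr]; ring
        rw [e1, e2]
        field_simp
        ring
      rw [e0]
      have q0 : 0 ≤ al b * (d * Z) / s' := by positivity
      have q1 : |(al b * (d * Z) / s') * r| ≤ al b * ee * (d * Z) := by
        rw [abs_mul, abs_of_nonneg q0]
        calc (al b * (d * Z) / s') * |r| ≤ (al b * (d * Z) / s') * (ee * s') :=
              mul_le_mul_of_nonneg_left hx q0
          _ = _ := by field_simp
      have q2 : |p * (s' * m)| ≤ al b * ee * (d * Z) * (1 + Sl) := by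
        rw [abs_mul, abs_of_nonneg hp0, abs_of_nonneg (show 0 ≤ s' * m by positivity)]
        calc p * (s' * m) ≤ (ee * (al b * (d * Z) / s')) * (s' * (1 + Sl)) :=
              mul_le_mul hp1 (mul_le_mul_of_nonneg_left hm1 hs'.le) (by positivity) (by positivity)
          _ = _ := by field_simp
      have q3 : |p * r| ≤ al b * ee * (d * Z) := by
        rw [abs_mul, abs_of_nonneg hp0]
        calc p * |r| ≤ (ee * (al b * (d * Z) / s')) * (ee * s') :=
              mul_le_mul hp1 hx (abs_nonneg _) (by positivity)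
          _ = ee * (al b * ee * (d * Z)) := by field_simp
          _ ≤ 1 * (al b * ee * (d * Z)) :=
              mul_le_mul_of_nonneg_right (by linarith) (by positivity)
          _ = _ := one_mul _
      have hpos : 0 ≤ al b * ee * (d * Z) := by positivity
      unfold KK
      rw [abs_le] at *
      constructor <;> nlinarith [q1.1, q1.2, q2.1, q2.2, q3.1, q3.2, mul_nonneg hpos hS.le]
    have k2 : |f * y - d * Z * (be b * n)| ≤ be b * KK * ee * (d * Z) := by
      obtain ⟨p, hp⟩ : ∃ p : ℝ, p = f - be b * (d * Z) / s := ⟨_, rfl⟩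
      obtain ⟨r, hr⟩ : ∃ r : ℝ, r = y - s * n := ⟨_, rfl⟩
      have hp0 : 0 ≤ p := by rw [hp]; linarith
      have hp1 : p ≤ ee * (be b * (d * Z) / s) := by rw [hp]; linarith
      rw [← hr] at hy
      have e0 : f * y - d * Z * (be b * n) = (be b * (d * Z) / s) * r + p * (s * n) + p * r := by
        have e1 : (f : ℝ) = be b * (d * Z) / s + p := by rw [hp]; ring
        have e2 : y = s * n + r := by rw [hr]; ring
        rw [e1, e2]
        field_simp
        ring
      rw [e0]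
      have q0 : 0 ≤ be b * (d * Z) / s := by positivity
      have q1 : |(be b * (d * Z) / s) * r| ≤ be b * ee * (d * Z) := by
        rw [abs_mul, abs_of_nonneg q0]
        calc (be b * (d * Z) / s) * |r| ≤ (be b * (d * Z) / s) * (ee * s) :=
              mul_le_mul_of_nonneg_left hy q0
          _ = _ := by field_simp
      have q2 : |p * (s * n)| ≤ be b * ee * (d * Z) * (1 + Sl) := by
        rw [abs_mul, abs_of_nonneg hp0, abs_of_nonneg (show 0 ≤ s * n by positivity)]
        calc p * (s * n) ≤ (ee * (be b * (d * Z) / s)) * (s * (1 + Sl)) :=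
              mul_le_mul hp1 (mul_le_mul_of_nonneg_left hn1 hs.le) (by positivity) (by positivity)
          _ = _ := by field_simp
      have q3 : |p * r| ≤ be b * ee * (d * Z) := by
        rw [abs_mul, abs_of_nonneg hp0]
        calc p * |r| ≤ (ee * (be b * (d * Z) / s)) * (ee * s) :=
              mul_le_mul hp1 hy (abs_nonneg _) (by positivity)
          _ = ee * (be b * ee * (d * Z)) := by field_simp
          _ ≤ 1 * (be b * ee * (d * Z)) :=
              mul_le_mul_of_nonneg_right (by linarith) (by positivity)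
          _ = _ := one_mul _
      have hpos : 0 ≤ be b * ee * (d * Z) := by positivity
      unfold KK
      rw [abs_le] at *
      constructor <;> nlinarith [q1.1, q1.2, q2.1, q2.2, q3.1, q3.2, mul_nonneg hpos hS.le]
    have k3 : d * (U - Z * (al b * m - be b * n)) =
        (e * x - d * Z * (al b * m)) - (f * y - d * Z * (be b * n)) := by
      rw [mul_sub, hU]
      ring
    have k4 : |d * (U - Z * (al b * m - be b * n))| ≤ d * (HH * ee * Z) := by
      rw [k3]
      have k5 := al_be_le hb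
      have k6 : (al b + be b) * KK ≤ HH := by
        unfold HH
        have := mul_le_mul_of_nonneg_right k5 KK_pos.le
        linarith
      have k7 : 0 ≤ ee * (d * Z) := by positivity
      have k8 := mul_le_mul_of_nonneg_right k6 k7
      calc |(e * x - d * Z * (al b * m)) - (f * y - d * Z * (be b * n))|
          ≤ |e * x - d * Z * (al b * m)| + |f * y - d * Z * (be b * n)| := abs_sub _ _
        _ ≤ al b * KK * ee * (d * Z) + be b * KK * ee * (d * Z) := add_le_add k1 k2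
        _ = (al b + be b) * KK * (ee * (d * Z)) := by ring
        _ ≤ HH * (ee * (d * Z)) := k8
        _ = _ := by ring
    rw [abs_mul, abs_of_pos hD] at k4
    exact le_of_mul_le_mul_left k4 hD
  have hsl := sg_nonneg (2 * b)
  have hsl' := sg_le' (l := 2 * b) (by omega)
  have hsr := sg_nonneg (2 * b + 2)
  have hsr' := sg_le' (l := 2 * b + 2) (by omega)
  constructor
  · have h := aux _ _ 1 1 _ zero_le_one (by linarith) zero_le_one (by linarith)
      (by rw [mul_one]; exact hw.1) (by rw [mul_one]; exact hv.1) j1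
    rw [mul_one, mul_one, al_be, add_sub_cancel_left, mul_one] at h
    exact h
  · have h := aux _ _ (sg (2 * b + 2)) (sg (2 * b)) _ hsr (by linarith) hsl (by linarith)
      hw.2 hv.2 j2
    rw [al_dir] at h
    exact h

/-- sizes of a vector in a box -/
theorem nr_nm {e s y : ℝ} {u : ℤ × ℤ} (he : e ≤ 1 / 400) (hs : 0 < s) (hy : 0 ≤ y) (hyS : y ≤ Sl)
    (hu : Nr e s y u) : s / 2 ≤ (nm u : ℝ) ∧ (nm u : ℝ) ≤ (2 + Sl) * s := by
  obtain ⟨h1, h2⟩ := hu
  rw [abs_le] at h1 h2
  have e1 : (nm u : ℝ) = u.1 + u.2 := by unfold nm; push_cast; ring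
  rw [e1]
  have h3 : 0 ≤ s * y := by positivity
  have h4 : s * y ≤ s * Sl := mul_le_mul_of_nonneg_left hyS hs.le
  constructor <;> nlinarith [h1.1, h1.2, h2.1, h2.2]

end Pool.Agent.AQ.TPA
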