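import Pool.Agent.Lib_helper15.TP.Facts
import Pool.Agent.Lib_helper8.AQ.NCDefs

/-!
# AQ (MP_892e4c_nt), (LB): the zigzag paths, definitions (helper15)

Port of `Lib_helper15/TP`.  The even vertices `v_0 = (1,0), v_1, …, v_4, v_5 = z` (slopes `b sz / 5`,
`v_1, …, v_4` tiny, `v_b = (1, -b)` modulo `M0`), the odd vertices above them, slopes
`sz + (b + 1) ka / 6`: `u_(2b+1) = (t_(2b) v_(b+1) - t_(2b+1) v_b) / Δ_b`, `Δ_b = det(v_b, v_(b+1)) > 0`,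
`t_(2b) = det(v_b, u)`, `t_(2b+1) = det(v_(b+1), u)`.  Classes: `t_j = d_0` modulo `a0` for `j ≤ 7`,
`t_8 z.1 = d_9` modulo `M0 = a0 gb`, `gb` = the part of `gam = z.2 + 4 z.1` at the primes of `a0`
(`Δ_4 = gam` modulo `M0`).
-/

set_option autoImplicit false

namespace Pool.Agent.AQ.TPA

open Finset Pool.Agent.PENT Pool.Agent.AQ.NC
open Pool.Agent.TPA (PX ell lc)

variable [Cst]

/-- the determinant of the forms -/
abbrev DD : ℤ := Pool.Agent.AQ.D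

/-- the end vector -/
abbrev zz : ℤ × ℤ := Pool.Agent.AQ.z

/-! ### constants -/

/-- the slope of `z` -/
noncomputable def sz : ℝ := (zz.2 : ℝ) / (zz.1 : ℝ)

/-- the bound for the slopes, `1 / ρ₂` -/
noncomputable def Sl : ℝ := 1 / ρ₂

/-- the gap -/
noncomputable def ka : ℝ := Sl - sz

/-- the minimal difference of two slopes of vertices -/
noncomputable def gp : ℝ := min (sz / 5) (ka / 6)

noncomputable def KK : ℝ := 4 + 2 * Sl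

noncomputable def HH : ℝ := 10 * Sl / sz * KK + 1

/-- the width of the boxes and windows -/
noncomputable def ee : ℝ := gp / (100 * KK * HH)

/-- a large constant -/
noncomputable def CC : ℝ := 100 * (1 + Sl) ^ 2 * (1 + 1 / sz) * (1 + 1 / gp) ^ 2

/-- the slope of the vertex `u_l` -/
noncomputable def sg (l : ℕ) : ℝ :=
  if l % 2 = 0 then ((l / 2 : ℕ) : ℝ) * sz / 5 else sz + (((l / 2 : ℕ) : ℝ) + 1) * ka / 6

noncomputable def al (b : ℕ) : ℝ := (sg (2 * b + 1) - sg (2 * b)) * 5 / sz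

noncomputable def be (b : ℕ) : ℝ := (sg (2 * b + 1) - sg (2 * b + 2)) * 5 / sz

/-- `z.2 + 4 z.1` -/
def gam : ℕ := (zz.2 + 4 * zz.1).natAbs

/-- the part of `gam` at the primes of `a0` -/
def gb : ℕ := Nat.gcd gam (a0.natAbs ^ gam)

/-- the modulus of the classes of the tiny vectors -/
def M0 : ℕ := a0.natAbs * gb

/-! ### boxes -/

/-- near `s (1, y)` -/
def Nr (e s y : ℝ) (u : ℤ × ℤ) : Prop := |(u.1 : ℝ) - s| ≤ e * s ∧ |(u.2 : ℝ) - s * y| ≤ e * s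

/-- the box `s ([1, 1 + ee] × [y, y + ee])` -/
def Bt (s y : ℝ) (u : ℤ × ℤ) : Prop :=
  s ≤ (u.1 : ℝ) ∧ (u.1 : ℝ) ≤ s + ee * s ∧ s * y ≤ (u.2 : ℝ) ∧ (u.2 : ℝ) ≤ s * y + ee * s

/-! ### the tiny vectors -/

/-- the even vertices from the tiny vectors -/
def vx (y : Fin 4 → ℤ × ℤ) (i : ℕ) : ℤ × ℤ :=
  if i = 0 then (1, 0) else if h : i ≤ 4 then y ⟨i - 1, by omega⟩ else zz

/-- the determinants of consecutive even vertices -/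
def De (v : ℕ → ℤ × ℤ) (b : ℕ) : ℤ := dt (v b) (v (b + 1))

/-- the part of `Δ_b` prime to `a0` -/
def Dq (v : ℕ → ℤ × ℤ) (b : ℕ) : ℕ := (De v b).natAbs / (if b = 4 then gb else 1)

/-- admissible tiny vectors: in the boxes, primitive, in the classes, `Δ_b` prime to the good primes
`≤ P1`, all determinants prime to the primes of `S` -/
structure Tin (P1 : ℕ) (S : Finset ℕ) (A : ℕ → ℝ) (v : ℕ → ℤ × ℤ) : Prop where
  v0 : v 0 = (1, 0)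
  v5 : v 5 = zz
  bx : ∀ i, 1 ≤ i → i ≤ 4 → Bt (A i) (sg (2 * i)) (v i)
  cl : ∀ i, 1 ≤ i → i ≤ 4 → (M0 : ℤ) ∣ (v i).1 - 1 ∧ (M0 : ℤ) ∣ (v i).2 + (i : ℤ)
  cp : ∀ i, 1 ≤ i → i ≤ 4 → IsCoprime (v i).1 (v i).2
  co : ∀ b, b ≤ 4 → ∀ p : ℕ, p.Prime → ¬ p ∣ R → p ≤ P1 → ¬ (p : ℤ) ∣ De v b
  av : ∀ p ∈ S, ∀ a b, a < b → b ≤ 5 → ¬ (p : ℤ) ∣ dt (v a) (v b)

open Classical in
/-- the admissible tiny vectors as a finite set -/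
noncomputable def TinF (P1 : ℕ) (S : Finset ℕ) (A : ℕ → ℝ) : Finset (Fin 4 → ℤ × ℤ) :=
  (Fintype.piFinset (fun i : Fin 4 => (Icc (0 : ℤ) ⌈(2 + Sl) * A (i.val + 1)⌉) ×ˢ
    (Icc (0 : ℤ) ⌈(2 + Sl) * A (i.val + 1)⌉))).filter (fun y => Tin P1 S A (vx y))

/-- the value of the form at `u` is prime to the split primes `≤ P1` -/
def NI (P1 : ℕ) (q : ℤ × ℤ × ℤ) (u : ℤ × ℤ) : Prop :=
  ∀ l : ℕ, Sp l → l ≤ P1 → ¬ (l : ℤ) ∣ fv q u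

open Classical in
/-- the good primes `≤ P1` -/
noncomputable def gpr (P1 : ℕ) : Finset ℕ := (Icc 3 P1).filter (fun p => p.Prime ∧ ¬ p ∣ R)

/-- the product over the good primes `≤ P1` of `1 - 1/p` -/
noncomputable def kp (P1 : ℕ) : ℝ := ∏ p ∈ gpr P1, (1 - 1 / (p : ℝ))

/-- the product of the good primes `≤ P1` -/
noncomputable def Ro (P1 : ℕ) : ℕ := ∏ p ∈ gpr P1, p

/-! ### windows -/

open Classical in
/-- the numbers of the window `(W, (1 + ee) W]` in the class `r` modulo `q` and `ρ` modulo `a` -/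
noncomputable def PD (W P : ℝ) (q : ℕ) (r : ℤ) (a : ℕ) (ρ : ℤ) (F : Finset (ℕ × ℤ)) : Finset ℕ :=
  (Icc 1 ⌊(1 + ee) * W⌋₊).filter (fun n : ℕ => W < (n : ℝ) ∧ (q : ℤ) ∣ (n : ℤ) - r ∧
    (a : ℤ) ∣ (n : ℤ) - ρ ∧ (∀ x ∈ F, ¬ (x.1 : ℤ) ∣ (n : ℤ) - x.2) ∧ DP P n)

/-- admissible moduli of the classes: `a0`, `M0` -/
structure Adm (a : ℕ) : Prop where
  pos : 0 < a
  dv : R ∣ a
  pr : ∀ p : ℕ, p.Prime → p ∣ a → p ∣ R

/-- a class modulo `a` which contains values of forms -/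
def Gcl (a : ℕ) (ρ : ℤ) : Prop :=
  ∃ A B C : ℤ, 0 < A ∧ IsCoprime A (a : ℤ) ∧ (a : ℤ) ∣ A - ρ ∧ A * C - B ^ 2 = DD

/-- the sums in windows: `δ`: the size of the window, modulus up to `X ^ (δ τ)` -/
def ZQ (α δ τ c : ℝ) (a : ℕ) (X₀ : ℕ) : Prop :=
  ∀ X ≥ X₀, ∀ P : ℝ, PX X P → ∀ (W : ℝ) (q : ℕ) (r ρ : ℤ) (F : Finset (ℕ × ℤ)),
      (X : ℝ) ^ δ ≤ W → W ≤ X → 0 < q → Nat.Coprime q a →
      (q : ℝ) ≤ (X : ℝ) ^ (δ * τ) → IsCoprime r (q : ℤ) → Gcl a ρ →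
      (∀ x ∈ F, x.1.Prime ∧ P < (x.1 : ℝ) ∧ ¬ x.1 ∣ q) →
      (F.card : ℝ) ≤ 100 * Real.log X →
      c * ell X P α * (q.totient / (q : ℝ) ^ 2) ≤ ∑ n ∈ PD W P q r a ρ F, fw P α n / n

/-! ### the data -/

/-- the data of a family of paths -/
structure Dat where
  P : ℝ
  P1 : ℕ
  q : ℤ × ℤ × ℤ
  A : ℕ → ℝ
  Z : ℕ → ℝ
  v : ℕ → ℤ × ℤ
  d0 : ℕ
  d9 : ℕ

namespace Dat

variable (D : Dat)

/-- the scale of the odd vertex `2b + 1` -/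
noncomputable def ZZ (b : ℕ) : ℝ :=
  if b = 0 then D.d0 * D.A 1 / (al 0 * De D.v 0)
  else if b = 4 then D.d9 * D.A 4 / (be 4 * De D.v 4) else D.Z b

/-- the window of `t_j` -/
noncomputable def win (j : ℕ) : ℝ :=
  (if j % 2 = 0 then al (j / 2) else be (j / 2)) * (De D.v (j / 2) * D.ZZ (j / 2)) /
    D.A (if j % 2 = 0 then j / 2 + 1 else j / 2)

/-- the vertices of the path -/
noncomputable def pv (t : ℕ → ℕ) (l : ℕ) : ℤ × ℤ :=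
  if l % 2 = 0 then D.v (l / 2)
  else uu (D.v (l / 2)) (D.v (l / 2 + 1)) (t (l - 1)) (-(t l : ℤ))

/-- the number to which `t_j` must be prime -/
noncomputable def MM (j : ℕ) (t : ℕ → ℕ) : ℕ :=
  (∏ a ∈ range 6, ∏ b ∈ range 6, if a < b then (dt (D.v a) (D.v b)).natAbs else 1) *
    (∏ l ∈ range j, t l) * D.d9 *
    ∏ a ∈ range 6, ∏ b ∈ range (j / 2), (dt (D.v a) (D.pv t (2 * b + 1))).natAbs

/-- the condition at the closing step `j = 2b + 1`, `b ≤ 3` -/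
def Clo (b : ℕ) (t : ℕ → ℕ) (n : ℕ) : Prop :=
  Int2 (D.v b) (D.v (b + 1)) (t (2 * b)) (-(n : ℤ)) ∧
    NI D.P1 D.q (lc (D.v b) (D.v (b + 1)) (t (2 * b)) (-(n : ℤ))) ∧
    (∀ l < 2 * b - 1, Nat.Coprime (t l)
      (dt (D.v ((l + 1) / 2)) (lc (D.v b) (D.v (b + 1)) (t (2 * b)) (-(n : ℤ)))).natAbs) ∧
    Nat.Coprime D.d9 (dt (D.v 5) (lc (D.v b) (D.v (b + 1)) (t (2 * b)) (-(n : ℤ)))).natAbs

/-- the condition at the step `j = 8` -/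
def Clo8 (t : ℕ → ℕ) (n : ℕ) : Prop :=
  (M0 : ℤ) ∣ (n : ℤ) * zz.1 - D.d9 ∧
  Int2 (D.v 4) (D.v 5) n (-(D.d9 : ℤ)) ∧ NI D.P1 D.q (lc (D.v 4) (D.v 5) n (-(D.d9 : ℤ))) ∧
    ∀ l < 7, Nat.Coprime (t l) (dt (D.v ((l + 1) / 2)) (lc (D.v 4) (D.v 5) n (-(D.d9 : ℤ)))).natAbs

open Classical in
/-- the admissible `t_j` -/
noncomputable def SS (j : ℕ) (t : ℕ → ℕ) : Finset ℕ :=
  if j = 0 then {D.d0} else if j = 9 then {D.d9} else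
    (Icc 1 ⌊(1 + ee) * D.win j⌋₊).filter (fun n => D.win j < (n : ℝ) ∧ DP D.P n ∧
      Nat.Coprime n (D.MM j t) ∧ (j ≤ 7 → a0 ∣ (n : ℤ) - D.d0) ∧
      (j % 2 = 1 → D.Clo (j / 2) t n) ∧ (j = 8 → D.Clo8 t n))

/-- the path as an element of `Vec 10` -/
noncomputable def path (t : ℕ → ℕ) : Vec 10 := fun i => D.pv t i.val

/-- the hypotheses -/
structure Hyp : Prop where
  P1le : (D.P1 : ℝ) ≤ D.P
  a0' : D.A 0 = 1
  a5 : D.A 5 = zz.1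
  apos : ∀ i, 0 < D.A i
  zpos : ∀ i, 0 < D.Z i
  tin : Tin D.P1 (D.d0 * D.d9).primeFactors D.A D.v
  e0 : DP D.P D.d0
  e9 : DP D.P D.d9
  e09 : Nat.Coprime D.d0 D.d9

end Dat

/-- sizes -/
structure Siz (D : Dat) (X : ℕ) : Prop where
  big : CC ≤ (X : ℝ) ^ (1 / 500 : ℝ)
  a : ∀ i, 1 ≤ D.A i ∧ D.A i ≤ (X : ℝ) ^ (1 / 500 : ℝ)
  z : ∀ i, 1 ≤ D.Z i ∧ D.Z i ≤ (X : ℝ) ^ (1 / 500 : ℝ)
  d0 : (D.d0 : ℝ) ≤ (X : ℝ) ^ (1 / 500 : ℝ)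
  d9 : (D.d9 : ℝ) ≤ (X : ℝ) ^ (1 / 500 : ℝ)

/-- the scale exponents as a sequence -/
def ex (ι : Fin 7 → ℕ) (l : ℕ) : ℕ := if h : l < 7 then ι ⟨l, h⟩ else 0

/-- the scales of the even vertices -/
noncomputable def sA (ι : Fin 7 → ℕ) (b : ℕ) : ℝ :=
  if b = 0 then 1 else if 5 ≤ b then (zz.1 : ℝ) else 2 ^ ex ι (2 * b - 2)

/-- the scales of the odd vertices -/
noncomputable def sZ (ι : Fin 7 → ℕ) (b : ℕ) : ℝ := 2 ^ ex ι (2 * b - 1)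

/-- the scales are in the windows -/
def WinP (p : Prm 10) (X : ℕ) (ι : Fin 7 → ℕ) : Prop :=
  ∀ l : Fin 7, CC * (X : ℝ) ^ p.e ⟨l.val + 2, by omega⟩ ≤ 2 ^ ι l ∧
    CC * 2 ^ ι l ≤ (X : ℝ) ^ (p.e ⟨l.val + 2, by omega⟩ + p.ew)

/-- the data -/
noncomputable def dat (X P1 : ℕ) (q : ℤ × ℤ × ℤ) (f : ℕ × ℕ) (ι : Fin 7 → ℕ)
    (y : Fin 4 → ℤ × ℤ) : Dat where
  P := PP X
  P1 := P1
  q := q
  A := sA ι
  Z := sZ ι
  v := vx y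
  d0 := f.1
  d9 := f.2

end Pool.Agent.AQ.TPA
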