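import Pool.Agent.Lib_helper15.AQ.TP.Cls

/-!
# AQ (MP_892e4c_nt), (LB): facts about the paths (helper15)
-/

set_option autoImplicit false

namespace Pool.Agent.AQ.TPA

open Finset Pool.Agent.PENT Pool.Agent.AQ.NC
open Pool.Agent.TPA (PX ell lc)

variable [Cst]

theorem dp_pos {P : ℝ} {n : ℕ} (h : DP P n) : 0 < n := Nat.pos_of_ne_zero h.1.ne_zero

theorem dp_cop {P : ℝ} {m n : ℕ} (hd : DP P n)
    (h : ∀ p : ℕ, p.Prime → p ∣ m → P < (p : ℝ) → ¬ p ∣ n) : Nat.Coprime n m := by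
  rw [Nat.coprime_iff_gcd_eq_one]
  by_contra hne
  obtain ⟨p, hp, hpd⟩ := Nat.exists_prime_and_dvd hne
  have h1 : p ∣ n := hpd.trans (Nat.gcd_dvd_left _ _)
  have h2 : p ∣ m := hpd.trans (Nat.gcd_dvd_right _ _)
  exact h p hp h2 (hd.2 p hp h1).2 h1

/-- the numbers of `DP` are prime to `R` -/
theorem dp_cop_R {P : ℝ} {n : ℕ} (hd : DP P n) : Nat.Coprime n R := by
  rw [Nat.coprime_iff_gcd_eq_one]
  by_contra hne
  obtain ⟨p, hp, hpd⟩ := Nat.exists_prime_and_dvd hne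
  exact (hd.2 p hp (hpd.trans (Nat.gcd_dvd_left _ _))).1.ndvd (hpd.trans (Nat.gcd_dvd_right _ _))

theorem mem_PD {W P : ℝ} {q : ℕ} {r : ℤ} {a : ℕ} {ρ : ℤ} {F : Finset (ℕ × ℤ)} {n : ℕ}
    (hW : 0 ≤ W) :
    n ∈ PD W P q r a ρ F ↔ W < (n : ℝ) ∧ (n : ℝ) ≤ (1 + ee) * W ∧ (q : ℤ) ∣ (n : ℤ) - r ∧
      (a : ℤ) ∣ (n : ℤ) - ρ ∧ (∀ x ∈ F, ¬ (x.1 : ℤ) ∣ (n : ℤ) - x.2) ∧ DP P n := by
  classical
  have hee := ee_pos
  have hW' : 0 ≤ (1 + ee) * W := by positivity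
  unfold PD
  rw [Finset.mem_filter, Finset.mem_Icc]
  constructor
  · rintro ⟨⟨h1, h2⟩, h3, h4⟩
    exact ⟨h3, (Nat.le_floor_iff hW').1 h2, h4⟩
  · rintro ⟨h3, h2, h4⟩
    refine ⟨⟨?_, (Nat.le_floor_iff hW').2 h2⟩, h3, h4⟩
    have : (0 : ℝ) < n := lt_of_le_of_lt hW h3
    exact_mod_cast this

namespace Dat

variable {D : Dat}

theorem Hyp.a5n (h : D.Hyp) : D.A 5 * sz = zz.2 := by rw [h.a5, ← zz2_eq]

/-- the even vertices are near their directions -/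
theorem Hyp.nb (h : D.Hyp) {i : ℕ} (hi : i ≤ 5) : Nr ee (D.A i) (sg (2 * i)) (D.v i) := by
  have hee := ee_pos
  rcases Nat.eq_zero_or_pos i with rfl | h0
  · rw [h.tin.v0, h.a0', mul_zero, sg_zero]
    constructor
    · simp only [Int.cast_one, sub_self, abs_zero, mul_one]
      exact hee.le
    · simp only [Int.cast_zero, mul_zero, sub_self, abs_zero, mul_one]
      exact hee.le
  · rcases Nat.eq_or_lt_of_le hi with rfl | h5
    · rw [h.tin.v5, h.a5, show 2 * 5 = 10 by norm_num, sg_ten]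
      have := zz1_pos
      constructor
      · rw [sub_self, abs_zero]; positivity
      · rw [← zz2_eq, sub_self, abs_zero]; positivity
    · exact nr_of_bt (h.apos i).le (h.tin.bx i h0 (by omega))

theorem Hyp.nb' (h : D.Hyp) {i : ℕ} (hi : i ≤ 5) :
    Nr (HH * ee) (D.A i) (sg (2 * i)) (D.v i) :=
  nr_mono ee_le_hee (h.apos i).le (h.nb hi)

/-- the determinants of the even vertices -/
theorem Hyp.dtv (h : D.Hyp) {a b : ℕ} (hab : a < b) (hb : b ≤ 5) :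
    99 / 100 * (sg (2 * b) - sg (2 * a)) * (D.A a * D.A b) ≤ (dt (D.v a) (D.v b) : ℝ) ∧
      (dt (D.v a) (D.v b) : ℝ) ≤ 101 / 100 * (sg (2 * b) - sg (2 * a)) * (D.A a * D.A b) ∧
      0 < dt (D.v a) (D.v b) := by
  have h1 := nr_sep (l := 2 * a) (m := 2 * b) (by omega) (by omega) (h.apos a) (h.apos b)
    (h.nb' (by omega)) (h.nb' hb)
  have h2 := sg_sep (l := 2 * a) (m := 2 * b) (by omega) (by omega)
  rw [sgn_ee, one_mul] at h1 h2
  rw [one_mul] at h1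
  refine ⟨h1.1, h1.2, ?_⟩
  have h3 := gp_pos
  have h4 : 0 < D.A a * D.A b := mul_pos (h.apos a) (h.apos b)
  have h5 : 0 < 99 / 100 * (sg (2 * b) - sg (2 * a)) * (D.A a * D.A b) := by
    have : 0 < sg (2 * b) - sg (2 * a) := by linarith [h2.1]
    positivity
  have : (0 : ℝ) < dt (D.v a) (D.v b) := by linarith [h1.1]
  exact_mod_cast this

theorem Hyp.De_pos (h : D.Hyp) {b : ℕ} (hb : b ≤ 4) : 0 < De D.v b :=
  (h.dtv (Nat.lt_succ_self b) (by omega)).2.2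

theorem sg_step (b : ℕ) : sg (2 * (b + 1)) - sg (2 * b) = sz / 5 := by
  rw [sg_even, sg_even]; push_cast; ring

theorem Hyp.De_bd (h : D.Hyp) {b : ℕ} (hb : b ≤ 4) :
    99 / 100 * (sz / 5) * (D.A b * D.A (b + 1)) ≤ (De D.v b : ℝ) ∧
      (De D.v b : ℝ) ≤ 101 / 100 * (sz / 5) * (D.A b * D.A (b + 1)) := by
  have h1 := h.dtv (Nat.lt_succ_self b) (by omega : b.succ ≤ 5)
  rw [show 2 * b.succ = 2 * (b + 1) by rfl, sg_step] at h1
  exact ⟨h1.1, h1.2.1⟩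

/-- `Dq_b ≤ Δ_b` -/
theorem Hyp.Dq_le (h : D.Hyp) {b : ℕ} (hb : b ≤ 4) : (Dq D.v b : ℝ) ≤ (De D.v b : ℝ) := by
  have h1 := h.tin.De_eq b
  have h2 : Dq D.v b ≤ (De D.v b).natAbs := by
    rw [h1]
    split_ifs
    · exact Nat.le_mul_of_pos_left _ gb_pos
    · rw [one_mul]
  have h3 : (((De D.v b).natAbs : ℕ) : ℝ) = (De D.v b : ℝ) := by
    rw [Nat.cast_natAbs, abs_of_pos (by exact_mod_cast h.De_pos hb)]
  rw [← h3]
  exact_mod_cast h2

theorem Hyp.Dq_pos (h : D.Hyp) {b : ℕ} (hb : b ≤ 4) : 0 < Dq D.v b := by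
  rcases Nat.eq_zero_or_pos (Dq D.v b) with h0 | h0
  · exfalso
    have h1 := h.tin.De_eq b
    rw [h0, mul_zero] at h1
    have h2 := h.De_pos hb
    omega
  · exact h0

/-- the primes of `Dq_b` are large -/
theorem Hyp.Dq_prime (h : D.Hyp) {b : ℕ} (hb : b ≤ 4) {p : ℕ} (hp : p.Prime)
    (hd : p ∣ Dq D.v b) : ¬ p ∣ R ∧ D.P1 < p := by
  have h1 : ¬ p ∣ R := by
    intro h2
    have h3 := Nat.dvd_gcd hd h2
    rw [h.tin.Dq_cop hb (h.De_pos hb)] at h3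
    exact hp.one_lt.ne' (Nat.dvd_one.1 h3)
  refine ⟨h1, ?_⟩
  by_contra hne
  have h4 : p ∣ (De D.v b).natAbs := by
    rw [h.tin.De_eq b]
    exact hd.mul_left _
  exact h.tin.co b hb p hp h1 (by omega) (Int.natCast_dvd.2 h4)

theorem Hyp.d0_pos (h : D.Hyp) : 0 < D.d0 := dp_pos h.e0

theorem Hyp.d9_pos (h : D.Hyp) : 0 < D.d9 := dp_pos h.e9

theorem Hyp.ZZ_pos (h : D.Hyp) (b : ℕ) : 0 < D.ZZ b := by
  have h0 : (0 : ℝ) < De D.v 0 := by exact_mod_cast h.De_pos (by norm_num : 0 ≤ 4)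
  have h4 : (0 : ℝ) < De D.v 4 := by exact_mod_cast h.De_pos (by norm_num : 4 ≤ 4)
  have d0 : (0 : ℝ) < D.d0 := by exact_mod_cast h.d0_pos
  have d9 : (0 : ℝ) < D.d9 := by exact_mod_cast h.d9_pos
  have a1 := h.apos 1
  have a4 := h.apos 4
  have z := h.zpos b
  have l0 := al_pos (b := 0) (by norm_num)
  have l4 := be_pos (b := 4) (by norm_num)
  unfold ZZ
  split_ifs <;> positivity

theorem Hyp.win_pos (h : D.Hyp) {j : ℕ} (hj : j ≤ 9) : 0 < D.win j := by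
  have h0 : (0 : ℝ) < De D.v (j / 2) := by exact_mod_cast h.De_pos (by omega : j / 2 ≤ 4)
  have h1 := h.ZZ_pos (j / 2)
  have h2 := h.apos (if j % 2 = 0 then j / 2 + 1 else j / 2)
  have h3 := al_pos (b := j / 2) (by omega)
  have h4 := be_pos (b := j / 2) (by omega)
  have h5 : 0 < (if j % 2 = 0 then al (j / 2) else be (j / 2)) := by split_ifs <;> assumption
  unfold win
  positivity

theorem win_even (b : ℕ) : D.win (2 * b) = al b * (De D.v b * D.ZZ b) / D.A (b + 1) := by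
  unfold Dat.win
  rw [if_pos (by omega), if_pos (by omega), Nat.mul_div_cancel_left _ (by norm_num)]

theorem win_odd (b : ℕ) : D.win (2 * b + 1) = be b * (De D.v b * D.ZZ b) / D.A b := by
  unfold Dat.win
  rw [if_neg (by omega), if_neg (by omega), show (2 * b + 1) / 2 = b by omega]

theorem Hyp.win0 (h : D.Hyp) : D.win 0 = D.d0 := by
  have h0 : (0 : ℝ) < De D.v 0 := by exact_mod_cast h.De_pos (by norm_num : 0 ≤ 4)
  have h1 := h.apos 1
  have l0 := al_pos (b := 0) (by norm_num)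
  have e : D.win 0 = al 0 * (De D.v 0 * (D.d0 * D.A 1 / (al 0 * De D.v 0))) / D.A 1 := rfl
  rw [e]
  field_simp

theorem Hyp.win9 (h : D.Hyp) : D.win 9 = D.d9 := by
  have h0 : (0 : ℝ) < De D.v 4 := by exact_mod_cast h.De_pos (by norm_num : 4 ≤ 4)
  have h1 := h.apos 4
  have l0 := be_pos (b := 4) (by norm_num)
  have e : D.win 9 = be 4 * (De D.v 4 * (D.d9 * D.A 4 / (be 4 * De D.v 4))) / D.A 4 := rfl
  rw [e]
  field_simp

theorem mem_SS {j : ℕ} (h0 : j ≠ 0) (h9 : j ≠ 9) {t : ℕ → ℕ} {n : ℕ} (hw : 0 ≤ D.win j) :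
    n ∈ D.SS j t ↔ D.win j < (n : ℝ) ∧ (n : ℝ) ≤ (1 + ee) * D.win j ∧ DP D.P n ∧
      Nat.Coprime n (D.MM j t) ∧ (j ≤ 7 → a0 ∣ (n : ℤ) - D.d0) ∧
      (j % 2 = 1 → D.Clo (j / 2) t n) ∧ (j = 8 → D.Clo8 t n) := by
  classical
  unfold SS
  rw [if_neg h0, if_neg h9, Finset.mem_filter, Finset.mem_Icc]
  have hee := ee_pos
  have hw' : 0 ≤ (1 + ee) * D.win j := by positivity
  constructor
  · rintro ⟨⟨h1, h2⟩, h3, h4⟩
    exact ⟨h3, (Nat.le_floor_iff hw').1 h2, h4⟩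
  · rintro ⟨h3, h2, h4⟩
    refine ⟨⟨?_, (Nat.le_floor_iff hw').2 h2⟩, h3, h4⟩
    have : (0 : ℝ) < n := lt_of_le_of_lt hw h3
    exact_mod_cast this

/-- the facts about the first `m` entries -/
structure PF (D : Dat) (m : ℕ) (t : ℕ → ℕ) : Prop where
  win : ∀ j < m, D.win j ≤ (t j : ℝ) ∧ (t j : ℝ) ≤ (1 + ee) * D.win j
  dp : ∀ j < m, DP D.P (t j)
  t0 : 0 < m → t 0 = D.d0
  t9 : 9 < m → t 9 = D.d9
  cv : ∀ j < m, ∀ a b, a < b → b ≤ 5 → Nat.Coprime (t j) (dt (D.v a) (D.v b)).natAbs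
  ct : ∀ i j, i < j → j < m → Nat.Coprime (t i) (t j)
  c9 : ∀ j < m, j < 9 → Nat.Coprime (t j) D.d9
  od : ∀ j < m, j < 9 → ∀ a, a ≤ 5 → ∀ b, b < j / 2 →
    Nat.Coprime (t j) (dt (D.v a) (D.pv t (2 * b + 1))).natAbs
  cl : ∀ j < m, j ≤ 7 → a0 ∣ (t j : ℤ) - D.d0
  clo : ∀ b, b ≤ 3 → 2 * b + 1 < m → D.Clo b t (t (2 * b + 1))
  clo8 : 8 < m → D.Clo8 t (t 8)

theorem dvd_MM1 {j a b : ℕ} (t : ℕ → ℕ) (hab : a < b) (hb : b ≤ 5) :
    (dt (D.v a) (D.v b)).natAbs ∣ D.MM j t := by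
  unfold MM
  refine Dvd.dvd.mul_right (Dvd.dvd.mul_right (Dvd.dvd.mul_right ?_ _) _) _
  have h1 : (if a < b then (dt (D.v a) (D.v b)).natAbs else 1) ∣
      ∏ b' ∈ range 6, (if a < b' then (dt (D.v a) (D.v b')).natAbs else 1) :=
    Finset.dvd_prod_of_mem (fun b' => if a < b' then (dt (D.v a) (D.v b')).natAbs else 1)
      (Finset.mem_range.2 (by omega))
  rw [if_pos hab] at h1
  exact h1.trans (Finset.dvd_prod_of_mem
    (fun a' => ∏ b' ∈ range 6, (if a' < b' then (dt (D.v a') (D.v b')).natAbs else 1))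
    (Finset.mem_range.2 (by omega)))

theorem dvd_MM2 {j i : ℕ} (t : ℕ → ℕ) (hij : i < j) : t i ∣ D.MM j t := by
  unfold MM
  refine Dvd.dvd.mul_right (Dvd.dvd.mul_right (Dvd.dvd.mul_left ?_ _) _) _
  exact Finset.dvd_prod_of_mem _ (Finset.mem_range.2 hij)

theorem dvd_MM3 (j : ℕ) (t : ℕ → ℕ) : D.d9 ∣ D.MM j t := by
  unfold MM
  exact Dvd.dvd.mul_right (dvd_mul_left _ _) _

theorem dvd_MM4 {j a b : ℕ} (t : ℕ → ℕ) (ha : a ≤ 5) (hb : b < j / 2) :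
    (dt (D.v a) (D.pv t (2 * b + 1))).natAbs ∣ D.MM j t := by
  unfold MM
  refine Dvd.dvd.mul_left ?_ _
  have h1 : (dt (D.v a) (D.pv t (2 * b + 1))).natAbs ∣
      ∏ b' ∈ range (j / 2), (dt (D.v a) (D.pv t (2 * b' + 1))).natAbs :=
    Finset.dvd_prod_of_mem (fun b' => (dt (D.v a) (D.pv t (2 * b' + 1))).natAbs)
      (Finset.mem_range.2 hb)
  exact h1.trans (Finset.dvd_prod_of_mem
    (fun a' => ∏ b' ∈ range (j / 2), (dt (D.v a') (D.pv t (2 * b' + 1))).natAbs)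
    (Finset.mem_range.2 (by omega)))

theorem cop_of_tin (h : D.Hyp) {d : ℕ} (hd : d ∣ D.d0 * D.d9) {a b : ℕ} (hab : a < b)
    (hb : b ≤ 5) : Nat.Coprime d (dt (D.v a) (D.v b)).natAbs := by
  rw [Nat.coprime_iff_gcd_eq_one]
  by_contra hne
  obtain ⟨p, hp, hpd⟩ := Nat.exists_prime_and_dvd hne
  have h1 : p ∣ D.d0 * D.d9 := (hpd.trans (Nat.gcd_dvd_left _ _)).trans hd
  have h2 : p ∣ (dt (D.v a) (D.v b)).natAbs := hpd.trans (Nat.gcd_dvd_right _ _)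
  refine h.tin.av p ?_ a b hab hb (Int.natCast_dvd.2 h2)
  exact Nat.mem_primeFactors.2 ⟨hp, h1,
    mul_ne_zero h.d0_pos.ne' h.d9_pos.ne'⟩

/-- the facts from the membership -/
theorem pf_of_mem (h : D.Hyp) {m : ℕ} (hm : m ≤ 10) {t : ℕ → ℕ} (ht : ∀ j < m, t j ∈ D.SS j t) :
    PF D m t := by
  have key : ∀ j < m, j ≠ 0 → j ≠ 9 → D.win j < (t j : ℝ) ∧ (t j : ℝ) ≤ (1 + ee) * D.win j ∧
      DP D.P (t j) ∧ Nat.Coprime (t j) (D.MM j t) ∧ (j ≤ 7 → a0 ∣ (t j : ℤ) - D.d0) ∧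
      (j % 2 = 1 → D.Clo (j / 2) t (t j)) ∧ (j = 8 → D.Clo8 t (t j)) := by
    intro j hj h0 h9
    exact (mem_SS h0 h9 (h.win_pos (by omega)).le).1 (ht j hj)
  have hee := ee_pos
  have k0 : 0 < m → t 0 = D.d0 := by
    intro h0
    have := ht 0 h0
    unfold SS at this
    rw [if_pos rfl] at this
    exact Finset.mem_singleton.1 this
  have k9 : 9 < m → t 9 = D.d9 := by
    intro h0
    have := ht 9 h0
    unfold SS at this
    rw [if_neg (by norm_num), if_pos rfl] at this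
    exact Finset.mem_singleton.1 this
  refine ⟨?_, ?_, k0, k9, ?_, ?_, ?_, ?_, ?_, ?_, ?_⟩
  · intro j hj
    rcases Nat.eq_zero_or_pos j with rfl | h0
    · rw [k0 hj, h.win0]
      have : (0 : ℝ) < D.d0 := by exact_mod_cast h.d0_pos
      constructor
      · exact le_rfl
      · nlinarith
    · by_cases h9 : j = 9
      · subst h9
        rw [k9 hj, h.win9]
        have : (0 : ℝ) < D.d9 := by exact_mod_cast h.d9_pos
        constructor
        · exact le_rfl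
        · nlinarith
      · obtain ⟨a, b, -⟩ := key j hj h0.ne' h9
        exact ⟨a.le, b⟩
  · intro j hj
    rcases Nat.eq_zero_or_pos j with rfl | h0
    · rw [k0 hj]; exact h.e0
    · by_cases h9 : j = 9
      · subst h9
        rw [k9 hj]; exact h.e9
      · exact (key j hj h0.ne' h9).2.2.1
  · intro j hj a b hab hb
    rcases Nat.eq_zero_or_pos j with rfl | h0
    · rw [k0 hj]
      exact cop_of_tin h (dvd_mul_right _ _) hab hb
    · by_cases h9 : j = 9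
      · subst h9
        rw [k9 hj]
        exact cop_of_tin h (dvd_mul_left _ _) hab hb
      · exact Nat.Coprime.coprime_dvd_right (dvd_MM1 t hab hb) (key j hj h0.ne' h9).2.2.2.1
  · intro i j hij hj
    by_cases h9 : j = 9
    · subst h9
      rw [k9 hj]
      rcases Nat.eq_zero_or_pos i with rfl | h0
      · rw [k0 (by omega)]; exact h.e09
      · exact Nat.Coprime.coprime_dvd_right (dvd_MM3 i t)
          (key i (by omega) h0.ne' (by omega)).2.2.2.1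
    · exact (Nat.Coprime.coprime_dvd_right (dvd_MM2 t hij)
        (key j hj (by omega) h9).2.2.2.1).symm
  · intro j hj h9
    rcases Nat.eq_zero_or_pos j with rfl | h0
    · rw [k0 (by omega)]; exact h.e09
    · exact Nat.Coprime.coprime_dvd_right (dvd_MM3 j t) (key j hj h0.ne' (by omega)).2.2.2.1
  · intro j hj h9 a ha b hb
    exact Nat.Coprime.coprime_dvd_right (dvd_MM4 t ha hb)
      (key j hj (by omega) (by omega)).2.2.2.1
  · intro j hj h7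
    rcases Nat.eq_zero_or_pos j with rfl | h0
    · rw [k0 hj, sub_self]; exact dvd_zero _
    · exact (key j hj h0.ne' (by omega)).2.2.2.2.1 h7
  · intro b hb hbm
    have := (key (2 * b + 1) hbm (by omega) (by omega)).2.2.2.2.2.1 (by omega)
    rwa [show (2 * b + 1) / 2 = b by omega] at this
  · intro h8
    exact (key 8 h8 (by norm_num) (by norm_num)).2.2.2.2.2.2 rfl

theorem PF.pos {m : ℕ} {t : ℕ → ℕ} (hp : PF D m t) {j : ℕ} (hj : j < m) : 0 < t j :=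
  dp_pos (hp.dp j hj)

/-- integrality of the odd vertices -/
theorem PF.int {m : ℕ} {t : ℕ → ℕ} (hp : PF D m t) {b : ℕ} (hb : b ≤ 4) (hbm : 2 * b + 1 < m) :
    Int2 (D.v b) (D.v (b + 1)) (t (2 * b)) (-(t (2 * b + 1) : ℤ)) := by
  by_cases h4 : b = 4
  · subst h4
    have h1 := (hp.clo8 (by omega)).2.1
    have h2 := hp.t9 (by omega)
    show Int2 (D.v 4) (D.v 5) ((t 8 : ℕ) : ℤ) (-((t 9 : ℕ) : ℤ))
    rw [h2]
    exact h1
  · exact (hp.clo b (by omega) hbm).1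

/-- the scale of the vertex `l` -/
noncomputable def sc (D : Dat) (l : ℕ) : ℝ := if l % 2 = 0 then D.A (l / 2) else D.ZZ (l / 2)

theorem Hyp.sc_pos (h : D.Hyp) (l : ℕ) : 0 < D.sc l := by
  unfold sc; split_ifs
  · exact h.apos _
  · exact h.ZZ_pos _

theorem sc_even (b : ℕ) : D.sc (2 * b) = D.A b := by
  unfold sc; rw [if_pos (by omega), Nat.mul_div_cancel_left _ (by norm_num)]

theorem sc_odd (b : ℕ) : D.sc (2 * b + 1) = D.ZZ b := by
  unfold sc; rw [if_neg (by omega), show (2 * b + 1) / 2 = b by omega]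

theorem pv_even (t : ℕ → ℕ) (b : ℕ) : D.pv t (2 * b) = D.v b := by
  unfold pv
  rw [if_pos (by omega), Nat.mul_div_cancel_left _ (by norm_num)]

theorem pv_odd (t : ℕ → ℕ) (b : ℕ) :
    D.pv t (2 * b + 1) = uu (D.v b) (D.v (b + 1)) (t (2 * b)) (-(t (2 * b + 1) : ℤ)) := by
  unfold pv
  rw [if_neg (by omega)]
  have e1 : (2 * b + 1) / 2 = b := by omega
  have e2 : 2 * b + 1 - 1 = 2 * b := by omega
  rw [e1, e2]

/-- the boxes of the vertices -/
theorem PF.box (h : D.Hyp) {m : ℕ} {t : ℕ → ℕ} (hp : PF D m t) {l : ℕ} (hl : l ≤ 10)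
    (hlm : l % 2 = 1 → l < m) : Nr (HH * ee) (D.sc l) (sg l) (D.pv t l) := by
  rcases Nat.even_or_odd' l with ⟨b, rfl | rfl⟩
  · rw [sc_even, pv_even]
    exact h.nb' (by omega)
  · rw [sc_odd, pv_odd]
    have hb : b ≤ 4 := by omega
    have hbm : 2 * b + 1 < m := hlm (by omega)
    have w1 := hp.win (2 * b) (by omega)
    have w2 := hp.win (2 * b + 1) hbm
    rw [win_even] at w1
    rw [win_odd] at w2
    have hD := h.De_pos hb
    exact nr_uu hb (h.apos b) (h.apos (b + 1)) (h.nb (by omega)) (h.nb (by omega)) hD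
      (hp.int hb hbm) (h.ZZ_pos b) (by exact_mod_cast w1.1) (by exact_mod_cast w1.2)
      (by exact_mod_cast w2.1) (by exact_mod_cast w2.2)

/-- the determinants of all pairs of vertices -/
theorem PF.dts (h : D.Hyp) {m : ℕ} {t : ℕ → ℕ} (hp : PF D m t) {l l' : ℕ} (hll : l < l')
    (hl : l' ≤ 10) (hlm : l % 2 = 1 → l < m) (hlm' : l' % 2 = 1 → l' < m) :
    99 / 100 * gp * (D.sc l * D.sc l') ≤ sgn l l' * (dt (D.pv t l) (D.pv t l') : ℝ) ∧
      |(dt (D.pv t l) (D.pv t l') : ℝ)| ≤ 2 * Sl * (D.sc l * D.sc l') ∧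
      dt (D.pv t l) (D.pv t l') ≠ 0 := by
  have h1 := nr_sep hll hl (h.sc_pos l) (h.sc_pos l') (hp.box h (by omega) hlm)
    (hp.box h hl hlm')
  obtain ⟨h2, h3⟩ := sg_sep hll hl
  have hS : 0 < D.sc l * D.sc l' := mul_pos (h.sc_pos l) (h.sc_pos l')
  have hg := gp_pos
  have hSl := Sl_pos
  have l1 : 99 / 100 * gp * (D.sc l * D.sc l') ≤
      sgn l l' * (dt (D.pv t l) (D.pv t l') : ℝ) := by
    refine le_trans ?_ h1.1
    exact mul_le_mul_of_nonneg_right (mul_le_mul_of_nonneg_left h2 (by norm_num)) hS.le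
  have l0 : 0 < 99 / 100 * gp * (D.sc l * D.sc l') := by positivity
  have habs : |(dt (D.pv t l) (D.pv t l') : ℝ)| =
      sgn l l' * (dt (D.pv t l) (D.pv t l') : ℝ) := by
    rw [← abs_of_pos (lt_of_lt_of_le l0 l1), abs_mul, sgn_abs, one_mul]
  refine ⟨l1, ?_, ?_⟩
  · rw [habs]
    refine h1.2.trans (mul_le_mul_of_nonneg_right ?_ hS.le)
    linarith
  · intro h0
    rw [h0] at l1
    simp only [Int.cast_zero, mul_zero] at l1
    linarith

/-- the determinants of the edges -/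
theorem PF.edge (h : D.Hyp) {m : ℕ} {t : ℕ → ℕ} (hp : PF D m t) {j : ℕ} (hj : j ≤ 9)
    (hjm : 2 * (j / 2) + 1 < m) :
    dt (D.pv t j) (D.pv t (j + 1)) = if j % 2 = 0 then (t j : ℤ) else -(t j : ℤ) := by
  rcases Nat.even_or_odd' j with ⟨b, rfl | rfl⟩
  · have hbm : 2 * b + 1 < m := by omega
    rw [pv_even, pv_odd, if_pos (by omega)]
    exact (uu_dt (hp.int (by omega) hbm) (h.De_pos (by omega : b ≤ 4)).ne').1
  · have hbm : 2 * b + 1 < m := by omega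
    rw [show 2 * b + 1 + 1 = 2 * (b + 1) by ring, pv_even, pv_odd, if_neg (by omega)]
    exact (uu_dt (hp.int (by omega) hbm) (h.De_pos (by omega : b ≤ 4)).ne').2

theorem PF.edge_abs (h : D.Hyp) {m : ℕ} {t : ℕ → ℕ} (hp : PF D m t) {j : ℕ} (hj : j ≤ 9)
    (hjm : 2 * (j / 2) + 1 < m) : (dt (D.pv t j) (D.pv t (j + 1))).natAbs = t j := by
  rw [hp.edge h hj hjm]
  split_ifs <;> simp

/-- `lc` is `Δ_b` times the odd vertex -/
theorem PF.lc_eq {m : ℕ} {t : ℕ → ℕ} (hp : PF D m t) {b : ℕ} (hb : b ≤ 4)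
    (hbm : 2 * b + 1 < m) :
    lc (D.v b) (D.v (b + 1)) (t (2 * b)) (-(t (2 * b + 1) : ℤ)) =
      (De D.v b * (D.pv t (2 * b + 1)).1, De D.v b * (D.pv t (2 * b + 1)).2) := by
  obtain ⟨h1, h2⟩ := uu_spec1 (hp.int hb hbm)
  rw [pv_odd]
  unfold lc De
  rw [h1, h2]

/-- the odd vertices are in the ideal -/
theorem PF.odd (h : D.Hyp) {m : ℕ} {t : ℕ → ℕ} (hp : PF D m t) {b : ℕ} (hb : b ≤ 4)
    (hbm : 2 * b + 1 < m) : a0 ∣ (D.pv t (2 * b + 1)).1 := by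
  have h1 := congrArg Prod.fst (hp.lc_eq hb hbm)
  simp only [lc] at h1
  by_cases h4 : b = 4
  · subst h4
    have h2 := (hp.clo8 (by omega)).1
    have h3 := hp.t9 (by omega)
    have h5 := h.tin.v5
    have h6 := h.tin.cl1 (b := 4) le_rfl
    have e1 : (M0 : ℤ) ∣ De D.v 4 * (D.pv t (2 * 4 + 1)).1 := by
      rw [← h1]
      show (M0 : ℤ) ∣ (t 8 : ℤ) * (D.v 5).1 + -(t 9 : ℤ) * (D.v 4).1
      rw [h3, h5]
      have e : (t 8 : ℤ) * zz.1 + -(D.d9 : ℤ) * (D.v 4).1 =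
          ((t 8 : ℤ) * zz.1 - D.d9) - (D.d9 : ℤ) * ((D.v 4).1 - 1) := by ring
      rw [e]
      exact dvd_sub h2 (h6.mul_left _)
    have h7 := h.tin.De_eq 4
    rw [if_pos rfl] at h7
    have h8 : De D.v 4 = (gb : ℤ) * (Dq D.v 4 : ℤ) := by
      have : ((De D.v 4).natAbs : ℤ) = De D.v 4 :=
        Int.natAbs_of_nonneg (h.De_pos (by norm_num : 4 ≤ 4)).le
      rw [← this, h7]; push_cast; ring
    rw [h8] at e1
    have hg : (gb : ℤ) ≠ 0 := by exact_mod_cast gb_pos.ne'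
    have e2 : a0 * (gb : ℤ) ∣ ((Dq D.v 4 : ℤ) * (D.pv t (2 * 4 + 1)).1) * (gb : ℤ) := by
      have e3 : (M0 : ℤ) = a0 * (gb : ℤ) := by
        unfold M0; rw [Nat.cast_mul, a0n_cast]
      rw [← e3]
      have e4 : (Dq D.v 4 : ℤ) * (D.pv t (2 * 4 + 1)).1 * (gb : ℤ) =
        (gb : ℤ) * (Dq D.v 4 : ℤ) * (D.pv t (2 * 4 + 1)).1 := by ring
      rw [e4]; exact e1
    have e5 := (mul_dvd_mul_iff_right hg).1 e2
    have e6 : IsCoprime a0 (Dq D.v 4 : ℤ) := by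
      have e7 : IsCoprime ((Dq D.v 4 : ℕ) : ℤ) (R : ℤ) :=
        Nat.isCoprime_iff_coprime.2 (h.tin.Dq_cop (by norm_num) (h.De_pos (by norm_num)))
      exact (cop_a0_iff.2 e7).symm
    exact e6.dvd_of_dvd_mul_left e5
  · have hb3 : b ≤ 3 := by omega
    have c1 := hp.cl (2 * b) (by omega) (by omega)
    have c2 := hp.cl (2 * b + 1) hbm (by omega)
    have c3 := a0_dvd_M0.trans (h.tin.cl1 (b := b) (by omega))
    have c4 := a0_dvd_M0.trans (h.tin.cl1 (b := b + 1) (by omega))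
    have e1 : a0 ∣ De D.v b * (D.pv t (2 * b + 1)).1 := by
      rw [← h1]
      have e : (t (2 * b) : ℤ) * (D.v (b + 1)).1 + -(t (2 * b + 1) : ℤ) * (D.v b).1 =
          (t (2 * b) : ℤ) * ((D.v (b + 1)).1 - 1) + ((t (2 * b) : ℤ) - D.d0) -
            (t (2 * b + 1) : ℤ) * ((D.v b).1 - 1) - ((t (2 * b + 1) : ℤ) - D.d0) := by ring
      rw [e]
      exact dvd_sub (dvd_sub (dvd_add (c4.mul_left _) c1) (c3.mul_left _)) c2
    exact (h.tin.De_cop hb3).symm.dvd_of_dvd_mul_left e1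

end Dat

end Pool.Agent.AQ.TPA
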