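import Pool.Agent.Lib_helper15.AQ.TP.Facts
import Pool.Agent.Lib_helper15.AQ.Z11

/-!
# AQ (MP_892e4c_nt), (LB): the sums in windows (helper15)
-/

set_option autoImplicit false

namespace Pool.Agent.AQ.TPA

open Finset Filter Pool.Agent.PENT Pool.Agent.AQ.NC
open Pool.Agent.TPA (PX ell lc tp_large)
open Pool.Agent.AQM (Spq DPq fwq zsN_form)

variable [Cst]

theorem spq_iff {a : ℕ} (ha : Adm a) {p : ℕ} (hp : p.Prime) : Spq DD a p ↔ Sp p := by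
  haveI : Fact p.Prime := ⟨hp⟩
  constructor
  · rintro ⟨h1, s, hs⟩
    refine ⟨hp, fun h => h1 (h.trans ha.dv), (s.val : ℤ), ?_⟩
    rw [← ZMod.intCast_zmod_eq_zero_iff_dvd]
    have h4 : ((s.val : ℤ) : ZMod p) = s := by
      rw [Int.cast_natCast]
      exact ZMod.natCast_zmod_val s
    push_cast at h4 hs ⊢
    rw [h4]
    linear_combination -hs
  · rintro ⟨_, h1, t, ht⟩
    refine ⟨fun h => h1 (ha.pr p hp h), (t : ZMod p), ?_⟩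
    rw [← ZMod.intCast_zmod_eq_zero_iff_dvd] at ht
    push_cast at ht ⊢
    linear_combination -ht

theorem dpq_iff {a : ℕ} (ha : Adm a) {P : ℝ} {n : ℕ} : DPq DD a P n ↔ DP P n := by
  constructor
  · rintro ⟨h1, h2⟩
    exact ⟨h1, fun p hp hd => ⟨(spq_iff ha hp).1 (h2 p hp hd).1, (h2 p hp hd).2⟩⟩
  · rintro ⟨h1, h2⟩
    exact ⟨h1, fun p hp hd => ⟨(spq_iff ha hp).2 (h2 p hp hd).1, (h2 p hp hd).2⟩⟩

theorem fwq_eq {a : ℕ} (ha : Adm a) (P α : ℝ) (n : ℕ) : fwq DD a P α n = fw P α n := by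
  unfold fwq fw
  by_cases h : DP P n
  · rw [if_pos h, if_pos ((dpq_iff ha).2 h)]
  · rw [if_neg h, if_neg (fun h' => h ((dpq_iff ha).1 h'))]

theorem one_lt_adm {a : ℕ} (ha : Adm a) : 1 < a := by
  have h1 := Nat.le_of_dvd ha.pos ha.dv
  have h2 := Nat.le_of_dvd R_pos six_dvd_R
  omega

/-- the statement for one class -/
def ZC (α : ℝ) (a : ℕ) (k : ℤ) (c τ Δ₀ : ℝ) : Prop :=
  ∀ (Δ P : ℝ) (q : ℕ) (r : ℤ) (F : Finset (ℕ × ℤ)), Δ₀ ≤ Δ → Real.log Δ ^ 20 ≤ P →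
    Real.log P ≤ Real.log Δ ^ (1 / 2 : ℝ) → 0 < q → Nat.Coprime q a → (q : ℝ) ≤ Δ ^ τ →
    IsCoprime r (q : ℤ) →
    (∀ x ∈ F, x.1.Prime ∧ P < (x.1 : ℝ) ∧ ¬ x.1 ∣ q) → (F.card : ℝ) ≤ Real.log Δ ^ 2 →
    c * (Δ / q) * (q.totient / q) * Real.log P ^ (-α) * Real.log Δ ^ (α - 1) ≤
      ∑ d ∈ (Finset.Icc 1 ⌊(1 + ee) * Δ⌋₊).filter (fun d : ℕ => Δ < (d : ℝ) ∧
        (q : ℤ) ∣ (d : ℤ) - r ∧ (a : ℤ) ∣ (d : ℤ) - k ∧
        ∀ x ∈ F, ¬ (x.1 : ℤ) ∣ (d : ℤ) - x.2), fw P α d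

theorem zc_ex {α : ℝ} (hα : 0 < α) (hα1 : α ≤ 1) {a : ℕ} (ha : Adm a) (k : ℤ) :
    ∃ c τ Δ₀ : ℝ, 0 < c ∧ 0 < τ ∧ (Gcl a k → ZC α a k c τ Δ₀) := by
  by_cases hk : Gcl a k
  · obtain ⟨A, B, C, hA, hc, hd, hD⟩ := hk
    have hFD : Pool.Agent.AQM.FD DD a A B C := by
      refine ⟨hD, D_ns, one_lt_adm ha, ?_, hc, hA⟩
      intro p hp hpd
      have hpp := Nat.prime_iff_prime_int.1 hp
      rcases hpp.dvd_or_dvd hpd with h | h
      · have h2 : p ∣ 2 := by exact_mod_cast h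
        exact (h2.trans two_dvd_R).trans ha.dv
      · exact (prime_dvd_D hp h).trans ha.dv
    obtain ⟨c, τ, Δ₀, h1, h2, h3⟩ := zsN_form hFD α ee hα hα1 ee_pos
      (ee_le.trans (by norm_num))
    refine ⟨c, τ, Δ₀, h1, h2, fun _ => ?_⟩
    intro Δ P q r F g1 g2 g3 g4 g5 g6 g7 g8 g9
    have h4 := h3 Δ P q r F g1 g2 g3 g4 g5 g6 g7 g8 g9
    refine h4.trans (le_of_eq ?_)
    have e : (Finset.Icc 1 ⌊(1 + ee) * Δ⌋₊).filter (fun d : ℕ => Δ < (d : ℝ) ∧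
        (q : ℤ) ∣ (d : ℤ) - r ∧ (a : ℤ) ∣ (d : ℤ) - A ∧
        ∀ x ∈ F, ¬ (x.1 : ℤ) ∣ (d : ℤ) - x.2) =
        (Finset.Icc 1 ⌊(1 + ee) * Δ⌋₊).filter (fun d : ℕ => Δ < (d : ℝ) ∧
        (q : ℤ) ∣ (d : ℤ) - r ∧ (a : ℤ) ∣ (d : ℤ) - k ∧
        ∀ x ∈ F, ¬ (x.1 : ℤ) ∣ (d : ℤ) - x.2) := by
      apply filter_congr
      intro d _
      have h5 : (a : ℤ) ∣ (d : ℤ) - A ↔ (a : ℤ) ∣ (d : ℤ) - k := by
        constructor
        · intro h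
          have := dvd_add h hd
          have e' : (d : ℤ) - A + (A - k) = (d : ℤ) - k := by ring
          rwa [e'] at this
        · intro h
          have := dvd_sub h hd
          have e' : (d : ℤ) - k - (A - k) = (d : ℤ) - A := by ring
          rwa [e'] at this
      rw [h5]
    rw [e]
    exact Finset.sum_congr rfl (fun d _ => fwq_eq ha P α d)
  · exact ⟨1, 1, 1, one_pos, one_pos, fun h => absurd h hk⟩

theorem gcl_congr {a : ℕ} {ρ k : ℤ} (h : (a : ℤ) ∣ ρ - k) (hG : Gcl a ρ) : Gcl a k := by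
  obtain ⟨A, B, C, h1, h2, h3, h4⟩ := hG
  refine ⟨A, B, C, h1, h2, ?_, h4⟩
  have := dvd_add h3 h
  have e : A - ρ + (ρ - k) = A - k := by ring
  rwa [e] at this

/-- uniform constants -/
theorem zc_all {α : ℝ} (hα : 0 < α) (hα1 : α ≤ 1) {a : ℕ} (ha : Adm a) :
    ∃ c τ Δ₀ : ℝ, 0 < c ∧ 0 < τ ∧ ∀ ρ : ℤ, Gcl a ρ → ∀ (Δ P : ℝ) (q : ℕ) (r : ℤ)
    (F : Finset (ℕ × ℤ)), Δ₀ ≤ Δ → 1 ≤ Δ → 1 ≤ P → Real.log Δ ^ 20 ≤ P →
    Real.log P ≤ Real.log Δ ^ (1 / 2 : ℝ) → 0 < q → Nat.Coprime q a → (q : ℝ) ≤ Δ ^ τ →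
    IsCoprime r (q : ℤ) →
    (∀ x ∈ F, x.1.Prime ∧ P < (x.1 : ℝ) ∧ ¬ x.1 ∣ q) → (F.card : ℝ) ≤ Real.log Δ ^ 2 →
    c * (Δ / q) * (q.totient / q) * Real.log P ^ (-α) * Real.log Δ ^ (α - 1) ≤
      ∑ d ∈ (Finset.Icc 1 ⌊(1 + ee) * Δ⌋₊).filter (fun d : ℕ => Δ < (d : ℝ) ∧
        (q : ℤ) ∣ (d : ℤ) - r ∧ (a : ℤ) ∣ (d : ℤ) - ρ ∧
        ∀ x ∈ F, ¬ (x.1 : ℤ) ∣ (d : ℤ) - x.2), fw P α d := by
  choose c τ Δ₀ h1 h2 h3 using fun k : ℤ => zc_ex hα hα1 ha k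
  have hne : (range a).Nonempty := ⟨0, mem_range.2 ha.pos⟩
  obtain ⟨k1, hk1, m1⟩ := exists_min_image (range a) (fun k : ℕ => c (k : ℤ)) hne
  obtain ⟨k2, hk2, m2⟩ := exists_min_image (range a) (fun k : ℕ => τ (k : ℤ)) hne
  obtain ⟨k3, hk3, m3⟩ := exists_max_image (range a) (fun k : ℕ => Δ₀ (k : ℤ)) hne
  refine ⟨c k1, τ k2, Δ₀ k3, h1 _, h2 _, ?_⟩
  intro ρ hρ Δ P q r F g1 gΔ gP g2 g3 g4 g5 g6 g7 g8 g9
  have ha0 : (0 : ℤ) < (a : ℤ) := by exact_mod_cast ha.pos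
  obtain ⟨k, hk⟩ : ∃ k : ℕ, (k : ℤ) = ρ % (a : ℤ) :=
    ⟨(ρ % (a : ℤ)).toNat, Int.toNat_of_nonneg (Int.emod_nonneg _ ha0.ne')⟩
  have hka : k < a := by
    have : (k : ℤ) < (a : ℤ) := by rw [hk]; exact Int.emod_lt_of_pos _ ha0
    exact_mod_cast this
  have hd : (a : ℤ) ∣ ρ - k := by
    rw [hk]; exact Int.dvd_self_sub_emod
  have hG := gcl_congr hd hρ
  have hm := mem_range.2 hka
  have q6 : (q : ℝ) ≤ Δ ^ τ k := g6.trans (Real.rpow_le_rpow_of_exponent_le gΔ (m2 k hm))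
  have h4 := h3 k hG Δ P q r F ((m3 k hm).trans g1) g2 g3 g4 g5 q6 g7 g8 g9
  have hlP : 0 ≤ Real.log P := Real.log_nonneg gP
  have hlΔ : 0 ≤ Real.log Δ := Real.log_nonneg gΔ
  have hpos : 0 ≤ (Δ / q) * (q.totient / q) * Real.log P ^ (-α) * Real.log Δ ^ (α - 1) := by
    have : 0 ≤ Real.log P ^ (-α) := Real.rpow_nonneg hlP _
    have : 0 ≤ Real.log Δ ^ (α - 1) := Real.rpow_nonneg hlΔ _
    have : 0 ≤ Δ := by linarith
    positivity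
  have h5 := mul_le_mul_of_nonneg_right (m1 k hm) hpos
  have e : (Finset.Icc 1 ⌊(1 + ee) * Δ⌋₊).filter (fun d : ℕ => Δ < (d : ℝ) ∧
        (q : ℤ) ∣ (d : ℤ) - r ∧ (a : ℤ) ∣ (d : ℤ) - k ∧
        ∀ x ∈ F, ¬ (x.1 : ℤ) ∣ (d : ℤ) - x.2) =
        (Finset.Icc 1 ⌊(1 + ee) * Δ⌋₊).filter (fun d : ℕ => Δ < (d : ℝ) ∧
        (q : ℤ) ∣ (d : ℤ) - r ∧ (a : ℤ) ∣ (d : ℤ) - ρ ∧
        ∀ x ∈ F, ¬ (x.1 : ℤ) ∣ (d : ℤ) - x.2) := by
    apply filter_congr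
    intro d _
    have h5 : (a : ℤ) ∣ (d : ℤ) - k ↔ (a : ℤ) ∣ (d : ℤ) - ρ := by
      constructor
      · intro h
        have := dvd_sub h hd
        have e' : (d : ℤ) - k - (ρ - k) = (d : ℤ) - ρ := by ring
        rwa [e'] at this
      · intro h
        have := dvd_add h hd
        have e' : (d : ℤ) - ρ + (ρ - k) = (d : ℤ) - k := by ring
        rwa [e'] at this
    rw [h5]
  rw [← e]
  refine le_trans ?_ h4
  calc _ = c k1 * ((Δ / q) * (q.totient / q) * Real.log P ^ (-α) * Real.log Δ ^ (α - 1)) := by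
        ring
    _ ≤ _ := h5
    _ = _ := by ring

/-- the sums in windows -/
theorem zq_of {α : ℝ} (hα : 0 < α) (hα1 : α ≤ 1) {a : ℕ} (ha : Adm a) :
    ∃ τ : ℝ, 0 < τ ∧ ∀ δ : ℝ, 0 < δ → ∃ c : ℝ, 0 < c ∧ ∃ X₀ : ℕ, ZQ α δ τ c a X₀ := by
  obtain ⟨c, τ, D₀, hc, hτ, H⟩ := zc_all hα hα1 ha
  refine ⟨τ, hτ, fun δ hδ => ?_⟩
  obtain ⟨X₀, hX₀⟩ := tp_large δ D₀ hδ
  refine ⟨c / 2, by positivity, max X₀ 3, fun X hX P hP W q r ρ F hD1 hD2 hq hqa hqX hr hρ hF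
    hFc => ?_⟩
  obtain ⟨g1, g2, g3, g4, g5, g6, g7, g8⟩ :=
    hX₀ X (le_trans (le_max_left _ _) hX) P hP W hD1 hD2
  have hX0 : (0 : ℝ) < X := by
    have : 3 ≤ X := le_trans (le_max_right _ _) hX
    exact_mod_cast (by omega : 0 < X)
  have hD0 : 0 < W := by linarith
  have hlX : 0 < Real.log X := by linarith
  have hq0 : (0 : ℝ) < q := by exact_mod_cast hq
  have hqD : (q : ℝ) ≤ W ^ τ := by
    refine hqX.trans ?_
    rw [Real.rpow_mul hX0.le]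
    exact Real.rpow_le_rpow (Real.rpow_nonneg hX0.le _) hD1 hτ.le
  have hP1 : 1 ≤ P := by
    by_contra hne
    push Not at hne
    have hlog : Real.log X ^ 20 < 1 := lt_of_le_of_lt hP.lo hne
    have h8 : 100 * Real.log X ≤ Real.log X ^ 2 :=
      g8.trans (pow_le_pow_left₀ g3.le g4 2)
    have h9 : 100 ≤ Real.log X := by nlinarith
    have h10 : (1 : ℝ) ≤ Real.log X ^ 20 := one_le_pow₀ (by linarith)
    linarith
  have h1 := H ρ hρ W P q r F g1 g2 hP1 g6 g7 hq hqa hqD hr hF (hFc.trans g8)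
  set T := (Finset.Icc 1 ⌊(1 + ee) * W⌋₊).filter (fun d : ℕ => W < (d : ℝ) ∧
        (q : ℤ) ∣ (d : ℤ) - r ∧ (a : ℤ) ∣ (d : ℤ) - ρ ∧
        ∀ x ∈ F, ¬ (x.1 : ℤ) ∣ (d : ℤ) - x.2) with hT
  have hee := ee_pos
  have hee1 := ee_le
  have hfw : ∀ n : ℕ, 0 ≤ fw P α n := by
    intro n
    unfold fw
    split_ifs
    · positivity
    · exact le_rfl
  have h2 : ∑ n ∈ T, fw P α n / (2 * W) ≤ ∑ n ∈ T, fw P α n / n := by
    apply Finset.sum_le_sum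
    intro n hn
    rw [hT, mem_filter, mem_Icc] at hn
    obtain ⟨⟨n1, n2⟩, n3, -⟩ := hn
    have hn0 : (0 : ℝ) < n := by linarith
    have n4 : (n : ℝ) ≤ (1 + ee) * W := (Nat.le_floor_iff (by positivity)).1 n2
    apply div_le_div_of_nonneg_left (hfw n) hn0
    nlinarith
  have h3 : ∑ n ∈ T, fw P α n / n = ∑ n ∈ PD W P q r a ρ F, fw P α n / n := by
    symm
    apply Finset.sum_subset
    · intro n hn
      rw [mem_PD hD0.le] at hn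
      obtain ⟨n1, n2, n3, n4, n5, n6⟩ := hn
      rw [hT, mem_filter, mem_Icc]
      refine ⟨⟨?_, (Nat.le_floor_iff (by positivity)).2 n2⟩, n1, n3, n4, n5⟩
      have : (0 : ℝ) < n := by linarith
      exact_mod_cast this
    · intro n hn hn'
      have : ¬ DP P n := by
        intro h
        apply hn'
        rw [hT, mem_filter, mem_Icc] at hn
        obtain ⟨⟨n1, n2⟩, n3, n4, n5, n6⟩ := hn
        rw [mem_PD hD0.le]
        exact ⟨n3, (Nat.le_floor_iff (by positivity)).1 n2, n4, n5, n6, h⟩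
      unfold fw
      rw [if_neg this, zero_div]
  rw [← h3]
  refine le_trans ?_ h2
  rw [← Finset.sum_div, le_div_iff₀ (by positivity)]
  refine le_trans ?_ h1
  have hlogP : 0 ≤ Real.log P := Real.log_nonneg hP1
  have h3 : Real.log X ^ (α - 1) ≤ Real.log W ^ (α - 1) :=
    Real.rpow_le_rpow_of_nonpos g3 g4 (by linarith)
  unfold ell
  have h5 : 0 ≤ Real.log P ^ (-α) := Real.rpow_nonneg hlogP _
  have h6 : 0 ≤ c * (W / q * (q.totient / q)) := by positivity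
  calc c / 2 * (Real.log P ^ (-α) * Real.log X ^ (α - 1)) *
        (q.totient / (q : ℝ) ^ 2) * (2 * W)
      = c * (W / q * (q.totient / q)) * Real.log P ^ (-α) * Real.log X ^ (α - 1) := by
        field_simp
    _ ≤ c * (W / q * (q.totient / q)) * Real.log P ^ (-α) * Real.log W ^ (α - 1) :=
        mul_le_mul_of_nonneg_left h3 (mul_nonneg h6 h5)
    _ = _ := by ring

end Pool.Agent.AQ.TPA
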